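import Mathlib

set_option autoImplicit false

/-!
# Dual bases and the volume of the dual fundamental domain
-/

namespace Pool.Agent.Helper70.Design

open MeasureTheory Metric Set
open scoped RealInnerProductSpace Pointwise

section Dual

variable {F : Type*} [NormedAddCommGroup F] [InnerProductSpace ℝ F] [FiniteDimensional ℝ F]

lemma innerl_nondegenerate : (innerₗ F).Nondegenerate := by
  constructor
  · intro x hx
    exact inner_self_eq_zero.mp (hx x)
  · intro x hx
    exact inner_self_eq_zero.mp (hx x)

/-- the dual basis for the inner product -/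
noncomputable def dualB {ι : Type*} [Finite ι] [DecidableEq ι] (b : Module.Basis ι ℝ F) :
    Module.Basis ι ℝ F :=
  LinearMap.BilinForm.dualBasis (innerₗ F) innerl_nondegenerate b

lemma inner_dualB {ι : Type*} [Finite ι] [DecidableEq ι] (b : Module.Basis ι ℝ F) (i j : ι) :
    ⟪b i, dualB b j⟫ = if i = j then 1 else 0 := by
  have h := LinearMap.BilinForm.apply_dualBasis_left (B := innerₗ F) innerl_nondegenerate b j i
  have h2 : ⟪dualB b j, b i⟫ = if i = j then 1 else 0 := h
  rw [real_inner_comm]
  exact h2

variable [MeasurableSpace F] [BorelSpace F]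

lemma vol_dual {ι : Type*} [Fintype ι] [DecidableEq ι] (b₀ : OrthonormalBasis ι ℝ F)
    (b : Module.Basis ι ℝ F) :
    (volume (ZSpan.fundamentalDomain b)).toReal *
      (volume (ZSpan.fundamentalDomain (dualB b))).toReal = 1 := by
  have h0 : volume (ZSpan.fundamentalDomain b₀.toBasis) = 1 := by
    rw [measure_congr (ZSpan.fundamentalDomain_ae_parallelepiped b₀.toBasis volume)]
    have := b₀.volume_parallelepiped
    simpa using this
  rw [ZSpan.measure_fundamentalDomain b volume b₀.toBasis,
    ZSpan.measure_fundamentalDomain (dualB b) volume b₀.toBasis, h0, mul_one, mul_one,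
    ENNReal.toReal_ofReal (abs_nonneg _), ENNReal.toReal_ofReal (abs_nonneg _), ← abs_mul]
  rw [Module.Basis.det_apply, Module.Basis.det_apply, ← Matrix.det_transpose,
    ← Matrix.det_mul]
  have : (b₀.toBasis.toMatrix b).transpose * b₀.toBasis.toMatrix (dualB b) = 1 := by
    ext i j
    rw [Matrix.mul_apply, Matrix.one_apply, ← inner_dualB b i j, ← b₀.sum_inner_mul_inner (b i)]
    refine Finset.sum_congr rfl fun k _ => ?_
    rw [Matrix.transpose_apply, Module.Basis.toMatrix_apply, Module.Basis.toMatrix_apply]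
    simp only [OrthonormalBasis.coe_toBasis_repr_apply, OrthonormalBasis.repr_apply_apply]
    rw [real_inner_comm (b i)]
  rw [this, Matrix.det_one, abs_one]

omit [MeasurableSpace F] [BorelSpace F] in
/-- integrality of the pairing -/
lemma inner_mem_int {ι : Type*} [Finite ι] [DecidableEq ι] (b : Module.Basis ι ℝ F) (x y : F)
    (hx : x ∈ Submodule.span ℤ (range b)) (hy : y ∈ Submodule.span ℤ (range (dualB b))) :
    ∃ m : ℤ, ⟪x, y⟫ = m := by
  induction hx using Submodule.span_induction with
  | mem x hx =>
    obtain ⟨i, rfl⟩ := hx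
    induction hy using Submodule.span_induction with
    | mem y hy =>
      obtain ⟨j, rfl⟩ := hy
      rw [inner_dualB]
      split_ifs
      · exact ⟨1, by simp⟩
      · exact ⟨0, by simp⟩
    | zero => exact ⟨0, by simp⟩
    | add y z _ _ h1 h2 =>
      obtain ⟨m, hm⟩ := h1
      obtain ⟨k, hk⟩ := h2
      exact ⟨m + k, by rw [inner_add_right, hm, hk]; push_cast; rfl⟩
    | smul c y _ h1 =>
      obtain ⟨m, hm⟩ := h1
      refine ⟨c * m, ?_⟩
      rw [← Int.cast_smul_eq_zsmul ℝ, inner_smul_right, hm]
      push_cast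
      rfl
  | zero => exact ⟨0, by simp⟩
  | add x z _ _ h1 h2 =>
    obtain ⟨m, hm⟩ := h1
    obtain ⟨k, hk⟩ := h2
    exact ⟨m + k, by rw [inner_add_left, hm, hk]; push_cast; rfl⟩
  | smul c x _ h1 =>
    obtain ⟨m, hm⟩ := h1
    refine ⟨c * m, ?_⟩
    rw [← Int.cast_smul_eq_zsmul ℝ, inner_smul_left, hm]
    simp

end Dual

end Pool.Agent.Helper70.Design
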