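import Pool.Agent.Helper70.Design.Blich
import Pool.Agent.Helper70.Design.Dual

set_option autoImplicit false

/-!
# The product of the minima of a lattice and its dual
-/

namespace Pool.Agent.Helper70.Design

open MeasureTheory Metric Set
open scoped RealInnerProductSpace Pointwise

variable {n : ℕ}

lemma exists_min_vec {F : Type*} [NormedAddCommGroup F] [InnerProductSpace ℝ F]
    [FiniteDimensional ℝ F] {ι : Type*} [Finite ι] [Nonempty ι] (b : Module.Basis ι ℝ F) :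
    ∃ α ∈ Submodule.span ℤ (range b), α ≠ 0 ∧
      ∀ v ∈ Submodule.span ℤ (range b), v ≠ 0 → ‖α‖ ≤ ‖v‖ := by
  obtain ⟨i⟩ := ‹Nonempty ι›
  set S : Set F := {v | v ∈ Submodule.span ℤ (range b) ∧ v ≠ 0 ∧ ‖v‖ ≤ ‖b i‖} with hS
  have hfin : S.Finite := by
    apply (ZSpan.setFinite_inter b (isBounded_closedBall (x := (0 : F)) (r := ‖b i‖))).subset
    rintro v ⟨h1, _, h3⟩
    refine ⟨?_, h1⟩
    rw [mem_closedBall, dist_zero_right]
    exact h3
  have hne : S.Nonempty := ⟨b i, Submodule.subset_span ⟨i, rfl⟩, b.ne_zero i, le_rfl⟩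
  obtain ⟨α, hα, hmin⟩ := hfin.exists_minimalFor (fun v => ‖v‖) S hne
  refine ⟨α, hα.1, hα.2.1, ?_⟩
  intro v hv hv0
  rcases le_total ‖v‖ ‖b i‖ with h | h
  · rcases le_total ‖α‖ ‖v‖ with h' | h'
    · exact h'
    · exact hmin ⟨hv, hv0, h⟩ h'
  · exact hα.2.2.trans h

/-- the product bound -/
theorem product_bound (hn : 0 < n) (b : Module.Basis (Fin n) ℝ (EuclideanSpace ℝ (Fin n)))
    (r : ℝ) (hr : 0 < r) (hmin : ∀ v ∈ Submodule.span ℤ (range b), v ≠ 0 → r ≤ ‖v‖) :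
    ∃ α : EuclideanSpace ℝ (Fin n), α ≠ 0 ∧
      (∀ x ∈ Submodule.span ℤ (range b), ∃ m : ℤ, ⟪x, α⟫ = m) ∧
      (Real.pi ^ 2 * (r ^ 2 * ‖α‖ ^ 2) / 4) ^ n ≤
        (Real.Gamma (n / 2 + 1) * ((n + 2) / 2)) ^ 4 := by
  have : Nonempty (Fin n) := ⟨⟨0, hn⟩⟩
  have : Nontrivial (EuclideanSpace ℝ (Fin n)) := by
    apply Module.nontrivial_of_finrank_pos (R := ℝ)
    rw [finrank_euclideanSpace_fin]
    exact hn
  obtain ⟨α, hα1, hα2, hα3⟩ := exists_min_vec (dualB b)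
  refine ⟨α, hα2, fun x hx => inner_mem_int b x α hx hα1, ?_⟩
  have hα0 : 0 < ‖α‖ := norm_pos_iff.mpr hα2
  have hs2 : 0 < Real.sqrt 2 := by positivity
  have h1 := blichfeldt b (r / Real.sqrt 2) (by positivity) (by
    intro v hv hv0
    have : Real.sqrt 2 * (r / Real.sqrt 2) = r := by field_simp
    rw [this]
    exact hmin v hv hv0)
  have h2 := blichfeldt (dualB b) (‖α‖ / Real.sqrt 2) (by positivity) (by
    intro v hv hv0
    have : Real.sqrt 2 * (‖α‖ / Real.sqrt 2) = ‖α‖ := by field_simp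
    rw [this]
    exact hα3 v hv hv0)
  rw [finrank_euclideanSpace_fin] at h1 h2
  have h3 := vol_dual (EuclideanSpace.basisFun (Fin n) ℝ) b
  set V := (volume (ball (0 : EuclideanSpace ℝ (Fin n)) 1)).toReal with hV
  have hVval : V = Real.sqrt Real.pi ^ n / Real.Gamma (n / 2 + 1) := by
    rw [hV, EuclideanSpace.volume_ball]
    simp only [ENNReal.ofReal_one, one_pow, one_mul, Fintype.card_fin]
    rw [ENNReal.toReal_ofReal]
    positivity
  have hG : 0 < Real.Gamma (n / 2 + 1) := Real.Gamma_pos_of_pos (by positivity)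
  have hV0 : 0 < V := by
    rw [hVval]
    have := Real.pi_pos
    positivity
  have h4 : (V * (r / Real.sqrt 2) ^ n * (2 / (n + 2))) *
      (V * (‖α‖ / Real.sqrt 2) ^ n * (2 / (n + 2))) ≤ 1 := by
    rw [← h3]
    apply mul_le_mul h1 h2 (by positivity) (by positivity)
  have h5 : (V * (r / Real.sqrt 2) ^ n * (2 / (n + 2))) *
      (V * (‖α‖ / Real.sqrt 2) ^ n * (2 / (n + 2))) =
      V ^ 2 * (r * ‖α‖ / 2) ^ n * (2 / (n + 2)) ^ 2 := by
    have : r * ‖α‖ / 2 = (r / Real.sqrt 2) * (‖α‖ / Real.sqrt 2) := by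
      rw [div_mul_div_comm, Real.mul_self_sqrt (by norm_num)]
    rw [this, mul_pow]
    ring
  rw [h5] at h4
  have h6 : (V ^ 2 * (r * ‖α‖ / 2) ^ n * (2 / (n + 2)) ^ 2) ^ 2 ≤ 1 := by
    have h0 : 0 ≤ V ^ 2 * (r * ‖α‖ / 2) ^ n * (2 / (n + 2)) ^ 2 := by positivity
    exact pow_le_one₀ h0 h4
  have hpi : Real.sqrt Real.pi ^ 2 = Real.pi := Real.sq_sqrt Real.pi_pos.le
  have h7 : (V ^ 2 * (r * ‖α‖ / 2) ^ n * (2 / (n + 2)) ^ 2) ^ 2 =
      (Real.pi ^ 2 * (r ^ 2 * ‖α‖ ^ 2) / 4) ^ n /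
        (Real.Gamma (n / 2 + 1) * ((n + 2) / 2)) ^ 4 := by
    rw [hVval]
    have e1 : (Real.pi ^ 2 * (r ^ 2 * ‖α‖ ^ 2) / 4) ^ n =
        (Real.sqrt Real.pi ^ n) ^ 4 * ((r * ‖α‖ / 2) ^ n) ^ 2 := by
      have : Real.pi ^ 2 * (r ^ 2 * ‖α‖ ^ 2) / 4 =
          Real.sqrt Real.pi ^ 4 * (r * ‖α‖ / 2) ^ 2 := by
        have : Real.sqrt Real.pi ^ 4 = Real.pi ^ 2 := by
          calc Real.sqrt Real.pi ^ 4 = (Real.sqrt Real.pi ^ 2) ^ 2 := by
                rw [← pow_mul]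
            _ = Real.pi ^ 2 := by rw [hpi]
        rw [this]; ring
      rw [this, mul_pow, ← pow_mul, ← pow_mul, ← pow_mul, ← pow_mul, mul_comm n 4, mul_comm n 2]
    rw [e1]
    field_simp
  rw [h7, div_le_one (by positivity)] at h6
  exact h6

end Pool.Agent.Helper70.Design
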