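import Pool.Agent.Helper70.Design.Num

set_option autoImplicit false

/-!
# Numerical upper bounds for the product of the minima
-/

namespace Pool.Agent.Helper70.Design

open scoped Nat

lemma lt_of_even (k : ℕ) (a g : ℝ) (hg0 : 0 < g)
    (h : (Real.pi ^ 2 * a / 4) ^ (2 * k) ≤
      (Real.Gamma (((2 * k : ℕ) : ℝ) / 2 + 1) * ((((2 * k : ℕ) : ℝ) + 2) / 2)) ^ 4)
    (hg : (((k + 1)! : ℕ) : ℝ) ^ 4 < ((3.14159 : ℝ) ^ 2 * g / 4) ^ (2 * k)) : a < g := by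
  by_contra hcon
  push Not at hcon
  have h1 : Real.Gamma (((2 * k : ℕ) : ℝ) / 2 + 1) * ((((2 * k : ℕ) : ℝ) + 2) / 2) =
      (((k + 1)! : ℕ) : ℝ) := by
    have e1 : (((2 * k : ℕ) : ℝ) / 2 + 1) = (k : ℝ) + 1 := by push_cast; ring
    have e2 : ((((2 * k : ℕ) : ℝ) + 2) / 2) = (k : ℝ) + 1 := by push_cast; ring
    rw [e1, e2, Real.Gamma_nat_eq_factorial, Nat.factorial_succ]
    push_cast
    ring
  rw [h1] at h
  have hpi := Real.pi_gt_d6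
  have h2 : ((3.14159 : ℝ) ^ 2 * g / 4) ^ (2 * k) ≤ (Real.pi ^ 2 * a / 4) ^ (2 * k) := by
    have h3 : (3.14159 : ℝ) ^ 2 ≤ Real.pi ^ 2 := by
      apply pow_le_pow_left₀ (by norm_num)
      linarith
    apply pow_le_pow_left₀ (by positivity)
    have h4 : (3.14159 : ℝ) ^ 2 * g ≤ Real.pi ^ 2 * a :=
      mul_le_mul h3 hcon hg0.le (by positivity)
    linarith
  linarith

lemma lt_of_odd (k : ℕ) (a g : ℝ) (hg0 : 0 < g)
    (h : (Real.pi ^ 2 * a / 4) ^ (2 * k + 1) ≤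
      (Real.Gamma (((2 * k + 1 : ℕ) : ℝ) / 2 + 1) * ((((2 * k + 1 : ℕ) : ℝ) + 2) / 2)) ^ 4)
    (hg : ((((2 * k + 3)‼ : ℕ) : ℝ) / 2 ^ (k + 2)) ^ 4 <
      ((3.14159 : ℝ) ^ 2) ^ (2 * k) * (g / 4) ^ (2 * k + 1)) : a < g := by
  by_contra hcon
  push Not at hcon
  have hpi0 := Real.pi_pos
  have h1 : Real.Gamma (((2 * k + 1 : ℕ) : ℝ) / 2 + 1) * ((((2 * k + 1 : ℕ) : ℝ) + 2) / 2) =
      ((((2 * k + 3)‼ : ℕ) : ℝ) / 2 ^ (k + 2)) * Real.sqrt Real.pi := by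
    have e1 : (((2 * k + 1 : ℕ) : ℝ) / 2 + 1) = ((k + 1 : ℕ) : ℝ) + 1 / 2 := by push_cast; ring
    rw [e1, Real.Gamma_nat_add_half]
    have e2 : 2 * (k + 1) - 1 = 2 * k + 1 := by omega
    have e3 : (2 * k + 3)‼ = (2 * k + 3) * (2 * k + 1)‼ := Nat.doubleFactorial_add_two (2 * k + 1)
    rw [e2, e3]
    push_cast
    field_simp
    ring
  rw [h1, mul_pow] at h
  have hs : Real.sqrt Real.pi ^ 4 = Real.pi ^ 2 := by
    calc Real.sqrt Real.pi ^ 4 = (Real.sqrt Real.pi ^ 2) ^ 2 := by rw [← pow_mul]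
      _ = Real.pi ^ 2 := by rw [Real.sq_sqrt hpi0.le]
  rw [hs] at h
  have hpi := Real.pi_gt_d6
  have h3 : (3.14159 : ℝ) ^ 2 ≤ Real.pi ^ 2 := by
    apply pow_le_pow_left₀ (by norm_num)
    linarith
  have h2 : (((3.14159 : ℝ) ^ 2) ^ (2 * k) * (g / 4) ^ (2 * k + 1)) * Real.pi ^ 2 ≤
      (Real.pi ^ 2 * a / 4) ^ (2 * k + 1) := by
    calc (((3.14159 : ℝ) ^ 2) ^ (2 * k) * (g / 4) ^ (2 * k + 1)) * Real.pi ^ 2
        ≤ ((Real.pi ^ 2) ^ (2 * k) * (a / 4) ^ (2 * k + 1)) * Real.pi ^ 2 := by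
          gcongr
      _ = (Real.pi ^ 2 * a / 4) ^ (2 * k + 1) := by
          rw [mul_div_assoc, mul_pow, pow_succ (Real.pi ^ 2)]
          ring
  have h4 : 0 < Real.pi ^ 2 := by positivity
  nlinarith


lemma bd_2 (a : ℝ) (h : (Real.pi ^ 2 * a / 4) ^ 2 ≤
    (Real.Gamma (((2 : ℕ) : ℝ) / 2 + 1) * ((((2 : ℕ) : ℝ) + 2) / 2)) ^ 4) : a < (163 / 100) :=
  lt_of_even 1 a (163 / 100) (by norm_num) h (by norm_num [Nat.factorial])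

lemma bd_3 (a : ℝ) (h : (Real.pi ^ 2 * a / 4) ^ 3 ≤
    (Real.Gamma (((3 : ℕ) : ℝ) / 2 + 1) * ((((3 : ℕ) : ℝ) + 2) / 2)) ^ 4) : a < (201 / 100) :=
  lt_of_odd 1 a (201 / 100) (by norm_num) h (by norm_num [Nat.doubleFactorial])

lemma bd_4 (a : ℝ) (h : (Real.pi ^ 2 * a / 4) ^ 4 ≤
    (Real.Gamma (((4 : ℕ) : ℝ) / 2 + 1) * ((((4 : ℕ) : ℝ) + 2) / 2)) ^ 4) : a < (61 / 25) :=
  lt_of_even 2 a (61 / 25) (by norm_num) h (by norm_num [Nat.factorial])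

lemma bd_5 (a : ℝ) (h : (Real.pi ^ 2 * a / 4) ^ 5 ≤
    (Real.Gamma (((5 : ℕ) : ℝ) / 2 + 1) * ((((5 : ℕ) : ℝ) + 2) / 2)) ^ 4) : a < (289 / 100) :=
  lt_of_odd 2 a (289 / 100) (by norm_num) h (by norm_num [Nat.doubleFactorial])

lemma bd_6 (a : ℝ) (h : (Real.pi ^ 2 * a / 4) ^ 6 ≤
    (Real.Gamma (((6 : ℕ) : ℝ) / 2 + 1) * ((((6 : ℕ) : ℝ) + 2) / 2)) ^ 4) : a < (169 / 50) :=
  lt_of_even 3 a (169 / 50) (by norm_num) h (by norm_num [Nat.factorial])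

lemma bd_7 (a : ℝ) (h : (Real.pi ^ 2 * a / 4) ^ 7 ≤
    (Real.Gamma (((7 : ℕ) : ℝ) / 2 + 1) * ((((7 : ℕ) : ℝ) + 2) / 2)) ^ 4) : a < (39 / 10) :=
  lt_of_odd 3 a (39 / 10) (by norm_num) h (by norm_num [Nat.doubleFactorial])

lemma bd_8 (a : ℝ) (h : (Real.pi ^ 2 * a / 4) ^ 8 ≤
    (Real.Gamma (((8 : ℕ) : ℝ) / 2 + 1) * ((((8 : ℕ) : ℝ) + 2) / 2)) ^ 4) : a < (111 / 25) :=
  lt_of_even 4 a (111 / 25) (by norm_num) h (by norm_num [Nat.factorial])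

lemma bd_9 (a : ℝ) (h : (Real.pi ^ 2 * a / 4) ^ 9 ≤
    (Real.Gamma (((9 : ℕ) : ℝ) / 2 + 1) * ((((9 : ℕ) : ℝ) + 2) / 2)) ^ 4) : a < (503 / 100) :=
  lt_of_odd 4 a (503 / 100) (by norm_num) h (by norm_num [Nat.doubleFactorial])

lemma bd_10 (a : ℝ) (h : (Real.pi ^ 2 * a / 4) ^ 10 ≤
    (Real.Gamma (((10 : ℕ) : ℝ) / 2 + 1) * ((((10 : ℕ) : ℝ) + 2) / 2)) ^ 4) : a < (141 / 25) :=
  lt_of_even 5 a (141 / 25) (by norm_num) h (by norm_num [Nat.factorial])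

lemma bd_11 (a : ℝ) (h : (Real.pi ^ 2 * a / 4) ^ 11 ≤
    (Real.Gamma (((11 : ℕ) : ℝ) / 2 + 1) * ((((11 : ℕ) : ℝ) + 2) / 2)) ^ 4) : a < (157 / 25) :=
  lt_of_odd 5 a (157 / 25) (by norm_num) h (by norm_num [Nat.doubleFactorial])

lemma bd_12 (a : ℝ) (h : (Real.pi ^ 2 * a / 4) ^ 12 ≤
    (Real.Gamma (((12 : ℕ) : ℝ) / 2 + 1) * ((((12 : ℕ) : ℝ) + 2) / 2)) ^ 4) : a < (139 / 20) :=
  lt_of_even 6 a (139 / 20) (by norm_num) h (by norm_num [Nat.factorial])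

lemma bd_13 (a : ℝ) (h : (Real.pi ^ 2 * a / 4) ^ 13 ≤
    (Real.Gamma (((13 : ℕ) : ℝ) / 2 + 1) * ((((13 : ℕ) : ℝ) + 2) / 2)) ^ 4) : a < (383 / 50) :=
  lt_of_odd 6 a (383 / 50) (by norm_num) h (by norm_num [Nat.doubleFactorial])

lemma bd_14 (a : ℝ) (h : (Real.pi ^ 2 * a / 4) ^ 14 ≤
    (Real.Gamma (((14 : ℕ) : ℝ) / 2 + 1) * ((((14 : ℕ) : ℝ) + 2) / 2)) ^ 4) : a < (839 / 100) :=
  lt_of_even 7 a (839 / 100) (by norm_num) h (by norm_num [Nat.factorial])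

lemma bd_15 (a : ℝ) (h : (Real.pi ^ 2 * a / 4) ^ 15 ≤
    (Real.Gamma (((15 : ℕ) : ℝ) / 2 + 1) * ((((15 : ℕ) : ℝ) + 2) / 2)) ^ 4) : a < (229 / 25) :=
  lt_of_odd 7 a (229 / 25) (by norm_num) h (by norm_num [Nat.doubleFactorial])

lemma bd_16 (a : ℝ) (h : (Real.pi ^ 2 * a / 4) ^ 16 ≤
    (Real.Gamma (((16 : ℕ) : ℝ) / 2 + 1) * ((((16 : ℕ) : ℝ) + 2) / 2)) ^ 4) : a < (199 / 20) :=
  lt_of_even 8 a (199 / 20) (by norm_num) h (by norm_num [Nat.factorial])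

lemma bd_17 (a : ℝ) (h : (Real.pi ^ 2 * a / 4) ^ 17 ≤
    (Real.Gamma (((17 : ℕ) : ℝ) / 2 + 1) * ((((17 : ℕ) : ℝ) + 2) / 2)) ^ 4) : a < (539 / 50) :=
  lt_of_odd 8 a (539 / 50) (by norm_num) h (by norm_num [Nat.doubleFactorial])

lemma bd_18 (a : ℝ) (h : (Real.pi ^ 2 * a / 4) ^ 18 ≤
    (Real.Gamma (((18 : ℕ) : ℝ) / 2 + 1) * ((((18 : ℕ) : ℝ) + 2) / 2)) ^ 4) : a < (1163 / 100) :=
  lt_of_even 9 a (1163 / 100) (by norm_num) h (by norm_num [Nat.factorial])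

lemma bd_19 (a : ℝ) (h : (Real.pi ^ 2 * a / 4) ^ 19 ≤
    (Real.Gamma (((19 : ℕ) : ℝ) / 2 + 1) * ((((19 : ℕ) : ℝ) + 2) / 2)) ^ 4) : a < (313 / 25) :=
  lt_of_odd 9 a (313 / 25) (by norm_num) h (by norm_num [Nat.doubleFactorial])

lemma bd_20 (a : ℝ) (h : (Real.pi ^ 2 * a / 4) ^ 20 ≤
    (Real.Gamma (((20 : ℕ) : ℝ) / 2 + 1) * ((((20 : ℕ) : ℝ) + 2) / 2)) ^ 4) : a < (1343 / 100) :=
  lt_of_even 10 a (1343 / 100) (by norm_num) h (by norm_num [Nat.factorial])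

lemma bd_21 (a : ℝ) (h : (Real.pi ^ 2 * a / 4) ^ 21 ≤
    (Real.Gamma (((21 : ℕ) : ℝ) / 2 + 1) * ((((21 : ℕ) : ℝ) + 2) / 2)) ^ 4) : a < (719 / 50) :=
  lt_of_odd 10 a (719 / 50) (by norm_num) h (by norm_num [Nat.doubleFactorial])

lemma bd_22 (a : ℝ) (h : (Real.pi ^ 2 * a / 4) ^ 22 ≤
    (Real.Gamma (((22 : ℕ) : ℝ) / 2 + 1) * ((((22 : ℕ) : ℝ) + 2) / 2)) ^ 4) : a < (307 / 20) :=
  lt_of_even 11 a (307 / 20) (by norm_num) h (by norm_num [Nat.factorial])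

lemma bd_23 (a : ℝ) (h : (Real.pi ^ 2 * a / 4) ^ 23 ≤
    (Real.Gamma (((23 : ℕ) : ℝ) / 2 + 1) * ((((23 : ℕ) : ℝ) + 2) / 2)) ^ 4) : a < (409 / 25) :=
  lt_of_odd 11 a (409 / 25) (by norm_num) h (by norm_num [Nat.doubleFactorial])

lemma bd_24 (a : ℝ) (h : (Real.pi ^ 2 * a / 4) ^ 24 ≤
    (Real.Gamma (((24 : ℕ) : ℝ) / 2 + 1) * ((((24 : ℕ) : ℝ) + 2) / 2)) ^ 4) : a < (1739 / 100) :=
  lt_of_even 12 a (1739 / 100) (by norm_num) h (by norm_num [Nat.factorial])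

lemma bd_25 (a : ℝ) (h : (Real.pi ^ 2 * a / 4) ^ 25 ≤
    (Real.Gamma (((25 : ℕ) : ℝ) / 2 + 1) * ((((25 : ℕ) : ℝ) + 2) / 2)) ^ 4) : a < (369 / 20) :=
  lt_of_odd 12 a (369 / 20) (by norm_num) h (by norm_num [Nat.doubleFactorial])

lemma bd_26 (a : ℝ) (h : (Real.pi ^ 2 * a / 4) ^ 26 ≤
    (Real.Gamma (((26 : ℕ) : ℝ) / 2 + 1) * ((((26 : ℕ) : ℝ) + 2) / 2)) ^ 4) : a < (977 / 50) :=
  lt_of_even 13 a (977 / 50) (by norm_num) h (by norm_num [Nat.factorial])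

lemma bd_27 (a : ℝ) (h : (Real.pi ^ 2 * a / 4) ^ 27 ≤
    (Real.Gamma (((27 : ℕ) : ℝ) / 2 + 1) * ((((27 : ℕ) : ℝ) + 2) / 2)) ^ 4) : a < (2067 / 100) :=
  lt_of_odd 13 a (2067 / 100) (by norm_num) h (by norm_num [Nat.doubleFactorial])

lemma bd_28 (a : ℝ) (h : (Real.pi ^ 2 * a / 4) ^ 28 ≤
    (Real.Gamma (((28 : ℕ) : ℝ) / 2 + 1) * ((((28 : ℕ) : ℝ) + 2) / 2)) ^ 4) : a < (1091 / 50) :=
  lt_of_even 14 a (1091 / 50) (by norm_num) h (by norm_num [Nat.factorial])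

lemma bd_29 (a : ℝ) (h : (Real.pi ^ 2 * a / 4) ^ 29 ≤
    (Real.Gamma (((29 : ℕ) : ℝ) / 2 + 1) * ((((29 : ℕ) : ℝ) + 2) / 2)) ^ 4) : a < 23 :=
  lt_of_odd 14 a 23 (by norm_num) h (by norm_num [Nat.doubleFactorial])

lemma bd_30 (a : ℝ) (h : (Real.pi ^ 2 * a / 4) ^ 30 ≤
    (Real.Gamma (((30 : ℕ) : ℝ) / 2 + 1) * ((((30 : ℕ) : ℝ) + 2) / 2)) ^ 4) : a < (2421 / 100) :=
  lt_of_even 15 a (2421 / 100) (by norm_num) h (by norm_num [Nat.factorial])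

lemma bd_31 (a : ℝ) (h : (Real.pi ^ 2 * a / 4) ^ 31 ≤
    (Real.Gamma (((31 : ℕ) : ℝ) / 2 + 1) * ((((31 : ℕ) : ℝ) + 2) / 2)) ^ 4) : a < (509 / 20) :=
  lt_of_odd 15 a (509 / 20) (by norm_num) h (by norm_num [Nat.doubleFactorial])

lemma bd_32 (a : ℝ) (h : (Real.pi ^ 2 * a / 4) ^ 32 ≤
    (Real.Gamma (((32 : ℕ) : ℝ) / 2 + 1) * ((((32 : ℕ) : ℝ) + 2) / 2)) ^ 4) : a < (2671 / 100) :=
  lt_of_even 16 a (2671 / 100) (by norm_num) h (by norm_num [Nat.factorial])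

lemma bd_33 (a : ℝ) (h : (Real.pi ^ 2 * a / 4) ^ 33 ≤
    (Real.Gamma (((33 : ℕ) : ℝ) / 2 + 1) * ((((33 : ℕ) : ℝ) + 2) / 2)) ^ 4) : a < (2801 / 100) :=
  lt_of_odd 16 a (2801 / 100) (by norm_num) h (by norm_num [Nat.doubleFactorial])

lemma bd_34 (a : ℝ) (h : (Real.pi ^ 2 * a / 4) ^ 34 ≤
    (Real.Gamma (((34 : ℕ) : ℝ) / 2 + 1) * ((((34 : ℕ) : ℝ) + 2) / 2)) ^ 4) : a < (1467 / 50) :=
  lt_of_even 17 a (1467 / 50) (by norm_num) h (by norm_num [Nat.factorial])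

lemma bd_35 (a : ℝ) (h : (Real.pi ^ 2 * a / 4) ^ 35 ≤
    (Real.Gamma (((35 : ℕ) : ℝ) / 2 + 1) * ((((35 : ℕ) : ℝ) + 2) / 2)) ^ 4) : a < (3069 / 100) :=
  lt_of_odd 17 a (3069 / 100) (by norm_num) h (by norm_num [Nat.doubleFactorial])

lemma bd_36 (a : ℝ) (h : (Real.pi ^ 2 * a / 4) ^ 36 ≤
    (Real.Gamma (((36 : ℕ) : ℝ) / 2 + 1) * ((((36 : ℕ) : ℝ) + 2) / 2)) ^ 4) : a < (802 / 25) :=
  lt_of_even 18 a (802 / 25) (by norm_num) h (by norm_num [Nat.factorial])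

lemma bd_37 (a : ℝ) (h : (Real.pi ^ 2 * a / 4) ^ 37 ≤
    (Real.Gamma (((37 : ℕ) : ℝ) / 2 + 1) * ((((37 : ℕ) : ℝ) + 2) / 2)) ^ 4) : a < (3349 / 100) :=
  lt_of_odd 18 a (3349 / 100) (by norm_num) h (by norm_num [Nat.doubleFactorial])

lemma bd_38 (a : ℝ) (h : (Real.pi ^ 2 * a / 4) ^ 38 ≤
    (Real.Gamma (((38 : ℕ) : ℝ) / 2 + 1) * ((((38 : ℕ) : ℝ) + 2) / 2)) ^ 4) : a < (3493 / 100) :=
  lt_of_even 19 a (3493 / 100) (by norm_num) h (by norm_num [Nat.factorial])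

lemma bd_39 (a : ℝ) (h : (Real.pi ^ 2 * a / 4) ^ 39 ≤
    (Real.Gamma (((39 : ℕ) : ℝ) / 2 + 1) * ((((39 : ℕ) : ℝ) + 2) / 2)) ^ 4) : a < (182 / 5) :=
  lt_of_odd 19 a (182 / 5) (by norm_num) h (by norm_num [Nat.doubleFactorial])

lemma bd_40 (a : ℝ) (h : (Real.pi ^ 2 * a / 4) ^ 40 ≤
    (Real.Gamma (((40 : ℕ) : ℝ) / 2 + 1) * ((((40 : ℕ) : ℝ) + 2) / 2)) ^ 4) : a < (379 / 10) :=
  lt_of_even 20 a (379 / 10) (by norm_num) h (by norm_num [Nat.factorial])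

lemma bd_41 (a : ℝ) (h : (Real.pi ^ 2 * a / 4) ^ 41 ≤
    (Real.Gamma (((41 : ℕ) : ℝ) / 2 + 1) * ((((41 : ℕ) : ℝ) + 2) / 2)) ^ 4) : a < (3943 / 100) :=
  lt_of_odd 20 a (3943 / 100) (by norm_num) h (by norm_num [Nat.doubleFactorial])

lemma bd_42 (a : ℝ) (h : (Real.pi ^ 2 * a / 4) ^ 42 ≤
    (Real.Gamma (((42 : ℕ) : ℝ) / 2 + 1) * ((((42 : ℕ) : ℝ) + 2) / 2)) ^ 4) : a < (4099 / 100) :=
  lt_of_even 21 a (4099 / 100) (by norm_num) h (by norm_num [Nat.factorial])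

lemma bd_43 (a : ℝ) (h : (Real.pi ^ 2 * a / 4) ^ 43 ≤
    (Real.Gamma (((43 : ℕ) : ℝ) / 2 + 1) * ((((43 : ℕ) : ℝ) + 2) / 2)) ^ 4) : a < (4257 / 100) :=
  lt_of_odd 21 a (4257 / 100) (by norm_num) h (by norm_num [Nat.doubleFactorial])

lemma bd_44 (a : ℝ) (h : (Real.pi ^ 2 * a / 4) ^ 44 ≤
    (Real.Gamma (((44 : ℕ) : ℝ) / 2 + 1) * ((((44 : ℕ) : ℝ) + 2) / 2)) ^ 4) : a < (4419 / 100) :=
  lt_of_even 22 a (4419 / 100) (by norm_num) h (by norm_num [Nat.factorial])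

lemma bd_45 (a : ℝ) (h : (Real.pi ^ 2 * a / 4) ^ 45 ≤
    (Real.Gamma (((45 : ℕ) : ℝ) / 2 + 1) * ((((45 : ℕ) : ℝ) + 2) / 2)) ^ 4) : a < (4583 / 100) :=
  lt_of_odd 22 a (4583 / 100) (by norm_num) h (by norm_num [Nat.doubleFactorial])

lemma bd_46 (a : ℝ) (h : (Real.pi ^ 2 * a / 4) ^ 46 ≤
    (Real.Gamma (((46 : ℕ) : ℝ) / 2 + 1) * ((((46 : ℕ) : ℝ) + 2) / 2)) ^ 4) : a < (95 / 2) :=
  lt_of_even 23 a (95 / 2) (by norm_num) h (by norm_num [Nat.factorial])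

lemma bd_47 (a : ℝ) (h : (Real.pi ^ 2 * a / 4) ^ 47 ≤
    (Real.Gamma (((47 : ℕ) : ℝ) / 2 + 1) * ((((47 : ℕ) : ℝ) + 2) / 2)) ^ 4) : a < (4921 / 100) :=
  lt_of_odd 23 a (4921 / 100) (by norm_num) h (by norm_num [Nat.doubleFactorial])

/-- all dimensions together -/
theorem neg_all (n : ℕ) (hn : 2 ≤ n) (hn' : n ≤ 47) (a : ℝ) (h0 : 0 < a)
    (h : (Real.pi ^ 2 * a / 4) ^ n ≤
      (Real.Gamma ((n : ℝ) / 2 + 1) * (((n : ℝ) + 2) / 2)) ^ 4) :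
    (Q3 n a < 0 ∨ Q5 n a < 0) ∧ (49 ≤ a → n = 47 ∧ a < 4921 / 100) := by
  interval_cases n
  · have hb := bd_2 a h
    exact ⟨by exact_mod_cast neg_2 a h0 hb, fun h9 => (by exfalso; linarith)⟩
  · have hb := bd_3 a h
    exact ⟨by exact_mod_cast neg_3 a h0 hb, fun h9 => (by exfalso; linarith)⟩
  · have hb := bd_4 a h
    exact ⟨by exact_mod_cast neg_4 a h0 hb, fun h9 => (by exfalso; linarith)⟩
  · have hb := bd_5 a h
    exact ⟨by exact_mod_cast neg_5 a h0 hb, fun h9 => (by exfalso; linarith)⟩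
  · have hb := bd_6 a h
    exact ⟨by exact_mod_cast neg_6 a h0 hb, fun h9 => (by exfalso; linarith)⟩
  · have hb := bd_7 a h
    exact ⟨by exact_mod_cast neg_7 a h0 hb, fun h9 => (by exfalso; linarith)⟩
  · have hb := bd_8 a h
    exact ⟨by exact_mod_cast neg_8 a h0 hb, fun h9 => (by exfalso; linarith)⟩
  · have hb := bd_9 a h
    exact ⟨by exact_mod_cast neg_9 a h0 hb, fun h9 => (by exfalso; linarith)⟩
  · have hb := bd_10 a h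
    exact ⟨by exact_mod_cast neg_10 a h0 hb, fun h9 => (by exfalso; linarith)⟩
  · have hb := bd_11 a h
    exact ⟨by exact_mod_cast neg_11 a h0 hb, fun h9 => (by exfalso; linarith)⟩
  · have hb := bd_12 a h
    exact ⟨by exact_mod_cast neg_12 a h0 hb, fun h9 => (by exfalso; linarith)⟩
  · have hb := bd_13 a h
    exact ⟨by exact_mod_cast neg_13 a h0 hb, fun h9 => (by exfalso; linarith)⟩
  · have hb := bd_14 a h
    exact ⟨by exact_mod_cast neg_14 a h0 hb, fun h9 => (by exfalso; linarith)⟩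
  · have hb := bd_15 a h
    exact ⟨by exact_mod_cast neg_15 a h0 hb, fun h9 => (by exfalso; linarith)⟩
  · have hb := bd_16 a h
    exact ⟨by exact_mod_cast neg_16 a h0 hb, fun h9 => (by exfalso; linarith)⟩
  · have hb := bd_17 a h
    exact ⟨by exact_mod_cast neg_17 a h0 hb, fun h9 => (by exfalso; linarith)⟩
  · have hb := bd_18 a h
    exact ⟨by exact_mod_cast neg_18 a h0 hb, fun h9 => (by exfalso; linarith)⟩
  · have hb := bd_19 a h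
    exact ⟨by exact_mod_cast neg_19 a h0 hb, fun h9 => (by exfalso; linarith)⟩
  · have hb := bd_20 a h
    exact ⟨by exact_mod_cast neg_20 a h0 hb, fun h9 => (by exfalso; linarith)⟩
  · have hb := bd_21 a h
    exact ⟨by exact_mod_cast neg_21 a h0 hb, fun h9 => (by exfalso; linarith)⟩
  · have hb := bd_22 a h
    exact ⟨by exact_mod_cast neg_22 a h0 hb, fun h9 => (by exfalso; linarith)⟩
  · have hb := bd_23 a h
    exact ⟨by exact_mod_cast neg_23 a h0 hb, fun h9 => (by exfalso; linarith)⟩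
  · have hb := bd_24 a h
    exact ⟨by exact_mod_cast neg_24 a h0 hb, fun h9 => (by exfalso; linarith)⟩
  · have hb := bd_25 a h
    exact ⟨by exact_mod_cast neg_25 a h0 hb, fun h9 => (by exfalso; linarith)⟩
  · have hb := bd_26 a h
    exact ⟨by exact_mod_cast neg_26 a h0 hb, fun h9 => (by exfalso; linarith)⟩
  · have hb := bd_27 a h
    exact ⟨by exact_mod_cast neg_27 a h0 hb, fun h9 => (by exfalso; linarith)⟩
  · have hb := bd_28 a h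
    exact ⟨by exact_mod_cast neg_28 a h0 hb, fun h9 => (by exfalso; linarith)⟩
  · have hb := bd_29 a h
    exact ⟨by exact_mod_cast neg_29 a h0 hb, fun h9 => (by exfalso; linarith)⟩
  · have hb := bd_30 a h
    exact ⟨by exact_mod_cast neg_30 a h0 hb, fun h9 => (by exfalso; linarith)⟩
  · have hb := bd_31 a h
    exact ⟨by exact_mod_cast neg_31 a h0 hb, fun h9 => (by exfalso; linarith)⟩
  · have hb := bd_32 a h
    exact ⟨by exact_mod_cast neg_32 a h0 hb, fun h9 => (by exfalso; linarith)⟩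
  · have hb := bd_33 a h
    exact ⟨by exact_mod_cast neg_33 a h0 hb, fun h9 => (by exfalso; linarith)⟩
  · have hb := bd_34 a h
    exact ⟨by exact_mod_cast neg_34 a h0 hb, fun h9 => (by exfalso; linarith)⟩
  · have hb := bd_35 a h
    exact ⟨by exact_mod_cast neg_35 a h0 hb, fun h9 => (by exfalso; linarith)⟩
  · have hb := bd_36 a h
    exact ⟨by exact_mod_cast neg_36 a h0 hb, fun h9 => (by exfalso; linarith)⟩
  · have hb := bd_37 a h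
    exact ⟨by exact_mod_cast neg_37 a h0 hb, fun h9 => (by exfalso; linarith)⟩
  · have hb := bd_38 a h
    exact ⟨by exact_mod_cast neg_38 a h0 hb, fun h9 => (by exfalso; linarith)⟩
  · have hb := bd_39 a h
    exact ⟨by exact_mod_cast neg_39 a h0 hb, fun h9 => (by exfalso; linarith)⟩
  · have hb := bd_40 a h
    exact ⟨by exact_mod_cast neg_40 a h0 hb, fun h9 => (by exfalso; linarith)⟩
  · have hb := bd_41 a h
    exact ⟨by exact_mod_cast neg_41 a h0 hb, fun h9 => (by exfalso; linarith)⟩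
  · have hb := bd_42 a h
    exact ⟨by exact_mod_cast neg_42 a h0 hb, fun h9 => (by exfalso; linarith)⟩
  · have hb := bd_43 a h
    exact ⟨by exact_mod_cast neg_43 a h0 hb, fun h9 => (by exfalso; linarith)⟩
  · have hb := bd_44 a h
    exact ⟨by exact_mod_cast neg_44 a h0 hb, fun h9 => (by exfalso; linarith)⟩
  · have hb := bd_45 a h
    exact ⟨by exact_mod_cast neg_45 a h0 hb, fun h9 => (by exfalso; linarith)⟩
  · have hb := bd_46 a h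
    exact ⟨by exact_mod_cast neg_46 a h0 hb, fun h9 => (by exfalso; linarith)⟩
  · have hb := bd_47 a h
    exact ⟨by exact_mod_cast neg_47 a h0 hb, fun h9 => ⟨rfl, by linarith⟩⟩

end Pool.Agent.Helper70.Design
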