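import Pool.Agent.Helper70.Design.Sphere
import Pool.Agent.Helper70.Design.Bound
import Pool.Agent.Helper70.Design.Num2

set_option autoImplicit false

/-!
# No minimal shell of a lattice in dimension at most 47 is a spherical 12-design
-/

namespace Pool.Agent.Helper70.Design

open MeasureTheory Metric Set
open scoped RealInnerProductSpace Pointwise

/-- the design equation of the frozen statement, for the shell of radius `r` of `L` -/
def ShellDesign (n : ℕ) (L : Submodule ℤ (EuclideanSpace ℝ (Fin n))) (r : ℝ) : Prop :=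
  ∀ p : MvPolynomial (Fin n) ℝ, p.totalDegree ≤ 12 →
    (∑ᶠ (v : EuclideanSpace ℝ (Fin n)) (_ : v ∈ L ∧ ‖v‖ = r),
        MvPolynomial.eval (fun i => WithLp.ofLp v i) p) =
      (Nat.card {v : EuclideanSpace ℝ (Fin n) // v ∈ L ∧ ‖v‖ = r} : ℝ) *
        ((∫ x, MvPolynomial.eval
              (fun i => r * WithLp.ofLp (x : EuclideanSpace ℝ (Fin n)) i) p
            ∂((MeasureTheory.volume :
                MeasureTheory.Measure (EuclideanSpace ℝ (Fin n))).toSphere)) /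
          ((MeasureTheory.volume :
                MeasureTheory.Measure (EuclideanSpace ℝ (Fin n))).toSphere
              Set.univ).toReal)

variable {n : ℕ}

/-- the polynomial `(∑ αᵢ Xᵢ) ^ (2 k)` -/
noncomputable def linPow (α : EuclideanSpace ℝ (Fin n)) (k : ℕ) : MvPolynomial (Fin n) ℝ :=
  (∑ i, MvPolynomial.C (α i) * MvPolynomial.X i) ^ (2 * k)

lemma linPow_degree (α : EuclideanSpace ℝ (Fin n)) (k : ℕ) :
    (linPow α k).totalDegree ≤ 2 * k := by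
  refine (MvPolynomial.totalDegree_pow _ _).trans ?_
  have h1 : (∑ i, MvPolynomial.C (α i) * MvPolynomial.X i : MvPolynomial (Fin n) ℝ).totalDegree
      ≤ 1 := by
    apply MvPolynomial.totalDegree_finsetSum_le
    intro i _
    refine (MvPolynomial.totalDegree_mul _ _).trans ?_
    rw [MvPolynomial.totalDegree_C, MvPolynomial.totalDegree_X]
  calc 2 * k * _ ≤ 2 * k * 1 := Nat.mul_le_mul_left _ h1
    _ = 2 * k := mul_one _

lemma linPow_eval (α x : EuclideanSpace ℝ (Fin n)) (k : ℕ) :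
    MvPolynomial.eval (fun i => WithLp.ofLp x i) (linPow α k) = ⟪x, α⟫ ^ (2 * k) := by
  rw [linPow, map_pow, map_sum]
  congr 1
  rw [PiLp.inner_apply]
  refine Finset.sum_congr rfl fun i _ => ?_
  rw [map_mul, MvPolynomial.eval_C, MvPolynomial.eval_X]
  simp

/-- the moments of a design shell -/
lemma shell_moment (hn : 0 < n) (L : Submodule ℤ (EuclideanSpace ℝ (Fin n))) (r : ℝ)
    (H : ShellDesign n L r) (X : Finset (EuclideanSpace ℝ (Fin n)))
    (hX : ∀ v, v ∈ X ↔ v ∈ L ∧ ‖v‖ = r) (α : EuclideanSpace ℝ (Fin n)) (k : ℕ) (hk : k ≤ 6) :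
    ∑ x ∈ X, (⟪x, α⟫ ^ 2) ^ k = X.card * (cc n k * (r ^ 2 * ‖α‖ ^ 2) ^ k) := by
  have h1 := H (linPow α k) ((linPow_degree α k).trans (by omega))
  have hset : {v : EuclideanSpace ℝ (Fin n) | v ∈ L ∧ ‖v‖ = r} = (X : Set _) := by
    ext v
    exact (hX v).symm
  have h2 : (∑ᶠ (v : EuclideanSpace ℝ (Fin n)) (_ : v ∈ L ∧ ‖v‖ = r),
      MvPolynomial.eval (fun i => WithLp.ofLp v i) (linPow α k)) =
      ∑ x ∈ X, (⟪x, α⟫ ^ 2) ^ k := by
    have h3 : (∑ᶠ (v : EuclideanSpace ℝ (Fin n)) (_ : v ∈ L ∧ ‖v‖ = r),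
      MvPolynomial.eval (fun i => WithLp.ofLp v i) (linPow α k)) =
      ∑ᶠ (v : EuclideanSpace ℝ (Fin n)) (_ : v ∈ (X : Set (EuclideanSpace ℝ (Fin n)))),
        MvPolynomial.eval (fun i => WithLp.ofLp v i) (linPow α k) := by
      rw [← hset]
      rfl
    rw [h3, finsum_mem_coe_finset]
    refine Finset.sum_congr rfl fun x _ => ?_
    rw [linPow_eval, pow_mul]
  have h4 : Nat.card {v : EuclideanSpace ℝ (Fin n) // v ∈ L ∧ ‖v‖ = r} = X.card := by
    have h5 : {v : EuclideanSpace ℝ (Fin n) // v ∈ L ∧ ‖v‖ = r} =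
        ({v : EuclideanSpace ℝ (Fin n) | v ∈ L ∧ ‖v‖ = r} : Set _) := rfl
    rw [h5, hset]
    simp
  have h6 : ∫ x, MvPolynomial.eval
              (fun i => r * WithLp.ofLp (x : EuclideanSpace ℝ (Fin n)) i) (linPow α k)
            ∂((MeasureTheory.volume :
                MeasureTheory.Measure (EuclideanSpace ℝ (Fin n))).toSphere) =
      r ^ (2 * k) * (cc n k * ‖α‖ ^ (2 * k) *
        (volume : Measure (EuclideanSpace ℝ (Fin n))).toSphere.real univ) := by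
    rw [← moment hn α k, ← integral_const_mul]
    refine integral_congr_ae (Filter.Eventually.of_forall fun x => ?_)
    simp only
    have h7 := linPow_eval α (r • (x : EuclideanSpace ℝ (Fin n))) k
    rw [inner_smul_left, mul_pow] at h7
    simpa using h7
  have hne : Nontrivial (EuclideanSpace ℝ (Fin n)) := by
    apply Module.nontrivial_of_finrank_pos (R := ℝ)
    rw [finrank_euclideanSpace_fin]
    exact hn
  have h8 : (volume : Measure (EuclideanSpace ℝ (Fin n))).toSphere.real univ ≠ 0 := by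
    rw [Measure.real]
    apply ENNReal.toReal_ne_zero.mpr
    refine ⟨?_, measure_ne_top _ _⟩
    rw [Measure.measure_univ_ne_zero]
    exact Measure.toSphere_ne_zero _
  rw [h2, h4, h6] at h1
  rw [h1]
  have h9 : ((MeasureTheory.volume : MeasureTheory.Measure (EuclideanSpace ℝ (Fin n))).toSphere
      Set.univ).toReal = (volume : Measure (EuclideanSpace ℝ (Fin n))).toSphere.real univ := rfl
  rw [h9]
  field_simp
  rw [mul_pow, ← pow_mul, ← pow_mul]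
  ring

/-- the expectation of a polynomial of degree at most six -/
lemma shell_poly (hn : 0 < n) (L : Submodule ℤ (EuclideanSpace ℝ (Fin n))) (r : ℝ)
    (H : ShellDesign n L r) (X : Finset (EuclideanSpace ℝ (Fin n)))
    (hX : ∀ v, v ∈ X ↔ v ∈ L ∧ ‖v‖ = r) (α : EuclideanSpace ℝ (Fin n))
    (c1 c2 c3 c4 c5 c6 : ℝ) :
    ∑ x ∈ X, (c1 * ⟪x, α⟫ ^ 2 + c2 * (⟪x, α⟫ ^ 2) ^ 2 + c3 * (⟪x, α⟫ ^ 2) ^ 3 +
      c4 * (⟪x, α⟫ ^ 2) ^ 4 + c5 * (⟪x, α⟫ ^ 2) ^ 5 + c6 * (⟪x, α⟫ ^ 2) ^ 6) =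
    X.card * (c1 * cc n 1 * (r ^ 2 * ‖α‖ ^ 2) + c2 * cc n 2 * (r ^ 2 * ‖α‖ ^ 2) ^ 2 +
      c3 * cc n 3 * (r ^ 2 * ‖α‖ ^ 2) ^ 3 + c4 * cc n 4 * (r ^ 2 * ‖α‖ ^ 2) ^ 4 +
      c5 * cc n 5 * (r ^ 2 * ‖α‖ ^ 2) ^ 5 + c6 * cc n 6 * (r ^ 2 * ‖α‖ ^ 2) ^ 6) := by
  have h1 := shell_moment hn L r H X hX α 1 (by norm_num)
  have h2 := shell_moment hn L r H X hX α 2 (by norm_num)
  have h3 := shell_moment hn L r H X hX α 3 (by norm_num)
  have h4 := shell_moment hn L r H X hX α 4 (by norm_num)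
  have h5 := shell_moment hn L r H X hX α 5 (by norm_num)
  have h6 := shell_moment hn L r H X hX α 6 (by norm_num)
  simp only [pow_one] at h1
  simp only [Finset.sum_add_distrib, ← Finset.mul_sum]
  rw [h1, h2, h3, h4, h5, h6]
  ring

lemma cc_vals (hn : 0 < n) :
    cc n 1 = 1 / n ∧ cc n 2 = 3 / (n * (n + 2)) ∧ cc n 3 = 15 / (n * (n + 2) * (n + 4)) ∧
    cc n 4 = 105 / (n * (n + 2) * (n + 4) * (n + 6)) ∧
    cc n 5 = 945 / (n * (n + 2) * (n + 4) * (n + 6) * (n + 8)) ∧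
    cc n 6 = 10395 / (n * (n + 2) * (n + 4) * (n + 6) * (n + 8) * (n + 10)) := by
  have hn' : (0 : ℝ) < n := by exact_mod_cast hn
  refine ⟨?_, ?_, ?_, ?_, ?_, ?_⟩ <;>
  · simp only [cc, Finset.prod_range_succ, Finset.prod_range_zero]
    push_cast
    field_simp
    ring

lemma e3_eq (x a : ℝ) (hx : 0 < x) :
    (-576) * (1 / x) * a + 1396 * (3 / (x * (x + 2))) * a ^ 2 +
      (-1093) * (15 / (x * (x + 2) * (x + 4))) * a ^ 3 +
      303 * (105 / (x * (x + 2) * (x + 4) * (x + 6))) * a ^ 4 +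
      (-31) * (945 / (x * (x + 2) * (x + 4) * (x + 6) * (x + 8))) * a ^ 5 +
      1 * (10395 / (x * (x + 2) * (x + 4) * (x + 6) * (x + 8) * (x + 10))) * a ^ 6 =
    a * Q3 x a / (x * (x + 2) * (x + 4) * (x + 6) * (x + 8) * (x + 10)) := by
  unfold Q3
  field_simp
  ring

lemma e5_eq (x a : ℝ) (hx : 0 < x) :
    20736 * (1 / x) * a + (-30096) * (3 / (x * (x + 2))) * a ^ 2 +
      10648 * (15 / (x * (x + 2) * (x + 4))) * a ^ 3 +
      (-1353) * (105 / (x * (x + 2) * (x + 4) * (x + 6))) * a ^ 4 +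
      66 * (945 / (x * (x + 2) * (x + 4) * (x + 6) * (x + 8))) * a ^ 5 +
      (-1) * (10395 / (x * (x + 2) * (x + 4) * (x + 6) * (x + 8) * (x + 10))) * a ^ 6 =
    a * Q5 x a / (x * (x + 2) * (x + 4) * (x + 6) * (x + 8) * (x + 10)) := by
  unfold Q5
  field_simp
  ring

lemma eR_eq (x a : ℝ) (hx : 0 < x) :
    (-1764) * (1 / x) * a + 2437 * (3 / (x * (x + 2))) * a ^ 2 +
      (-735) * (15 / (x * (x + 2) * (x + 4))) * a ^ 3 +
      63 * (105 / (x * (x + 2) * (x + 4) * (x + 6))) * a ^ 4 +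
      (-1) * (945 / (x * (x + 2) * (x + 4) * (x + 6) * (x + 8))) * a ^ 5 +
      0 * (10395 / (x * (x + 2) * (x + 4) * (x + 6) * (x + 8) * (x + 10))) * a ^ 6 =
    a * QR x a / (x * (x + 2) * (x + 4) * (x + 6) * (x + 8)) := by
  unfold QR
  field_simp
  ring

/-- a shell vector at maximal position forces all others to be small -/
lemma others_small {F : Type*} [NormedAddCommGroup F] [InnerProductSpace ℝ F] (x y α : F)
    (r : ℝ) (hr : 0 < r) (hx : ‖x‖ = r) (hy : ‖y‖ = r) (h1 : r ≤ ‖y - x‖) (h2 : r ≤ ‖y + x‖)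
    (h49 : ⟪x, α⟫ ^ 2 = 49) (ha : r ^ 2 * ‖α‖ ^ 2 < 4921 / 100) : ⟪y, α⟫ ^ 2 < 16 := by
  set m := ⟪x, α⟫ with hm
  set c := ⟪y, x⟫ with hc
  have e1 : ‖y - x‖ ^ 2 = 2 * r ^ 2 - 2 * c := by
    rw [norm_sub_sq_real, hx, hy]; ring
  have e2 : ‖y + x‖ ^ 2 = 2 * r ^ 2 + 2 * c := by
    rw [norm_add_sq_real, hx, hy]; ring
  have f1 : r ^ 2 ≤ ‖y - x‖ ^ 2 := pow_le_pow_left₀ hr.le h1 2
  have f2 : r ^ 2 ≤ ‖y + x‖ ^ 2 := pow_le_pow_left₀ hr.le h2 2
  have hc1 : c ≤ r ^ 2 / 2 := by linarith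
  have hc2 : -(r ^ 2 / 2) ≤ c := by linarith
  set δ : F := α - (m / r ^ 2) • x with hδ
  have hr2 : 0 < r ^ 2 := by positivity
  have hδ2 : ‖δ‖ ^ 2 * r ^ 2 = r ^ 2 * ‖α‖ ^ 2 - 49 := by
    rw [hδ, norm_sub_sq_real, inner_smul_right, norm_smul, real_inner_comm, ← hm, mul_pow,
      Real.norm_eq_abs, sq_abs, hx, ← h49]
    field_simp
    ring
  have hyα : ⟪y, α⟫ = m / r ^ 2 * c + ⟪y, δ⟫ := by
    rw [hδ, inner_sub_right, inner_smul_right]
    ring
  have hyδ : ⟪y, δ⟫ ^ 2 < 1 / 4 := by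
    have h3 := abs_real_inner_le_norm y δ
    rw [hy] at h3
    have h4 : |⟪y, δ⟫| ^ 2 ≤ (r * ‖δ‖) ^ 2 := pow_le_pow_left₀ (abs_nonneg _) h3 2
    rw [sq_abs, mul_pow] at h4
    nlinarith
  have hmc : (m / r ^ 2 * c) ^ 2 ≤ (7 / 2) ^ 2 := by
    have h5 : c ^ 2 ≤ (r ^ 2 / 2) ^ 2 := by nlinarith
    rw [mul_pow, div_pow, h49]
    rw [div_mul_eq_mul_div, div_le_iff₀ (by positivity)]
    nlinarith
  have h6 : |m / r ^ 2 * c| ≤ 7 / 2 := abs_le_of_sq_le_sq hmc (by norm_num)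
  have h7 : |⟪y, δ⟫| < 1 / 2 := by
    apply abs_lt_of_sq_lt_sq _ (by norm_num)
    linarith
  have h8 : |⟪y, α⟫| < 4 := by
    rw [hyα]
    exact lt_of_le_of_lt (abs_add_le _ _) (by linarith)
  rw [← sq_abs]
  nlinarith [abs_nonneg ⟪y, α⟫]

/-- main argument with a basis -/
theorem main_basis (hn : 2 ≤ n) (hn' : n ≤ 47)
    (b : Module.Basis (Fin n) ℝ (EuclideanSpace ℝ (Fin n)))
    (r : ℝ) (hr : 0 < r) (hex : ∃ v ∈ Submodule.span ℤ (range b), ‖v‖ = r)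
    (hmin : ∀ v ∈ Submodule.span ℤ (range b), v ≠ 0 → r ≤ ‖v‖)
    (H : ShellDesign n (Submodule.span ℤ (range b)) r) : False := by
  classical
  have hn0 : 0 < n := by omega
  obtain ⟨α, hα0, hint, hprod⟩ := product_bound hn0 b r hr hmin
  have hα : 0 < ‖α‖ := norm_pos_iff.mpr hα0
  set a : ℝ := r ^ 2 * ‖α‖ ^ 2 with ha
  have ha0 : 0 < a := by positivity
  obtain ⟨hneg, h49⟩ := neg_all n hn hn' a ha0 hprod
  -- the shell
  have hfin : {v : EuclideanSpace ℝ (Fin n) | v ∈ Submodule.span ℤ (range b) ∧ ‖v‖ = r}.Finite := by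
    apply (ZSpan.setFinite_inter b (isBounded_closedBall
      (x := (0 : EuclideanSpace ℝ (Fin n))) (r := r))).subset
    rintro v ⟨h1, h2⟩
    refine ⟨?_, h1⟩
    rw [mem_closedBall, dist_zero_right]
    exact h2.le
  set X := hfin.toFinset with hXdef
  have hX : ∀ v, v ∈ X ↔ v ∈ Submodule.span ℤ (range b) ∧ ‖v‖ = r := by
    intro v
    rw [hXdef, Set.Finite.mem_toFinset]
    rfl
  have hXne : X.Nonempty := by
    obtain ⟨v, hv, hvr⟩ := hex
    exact ⟨v, (hX v).mpr ⟨hv, hvr⟩⟩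
  have hcard : (0 : ℝ) < X.card := by exact_mod_cast hXne.card_pos
  have hn1 : (0 : ℝ) < n := by exact_mod_cast hn0
  obtain ⟨v1, v2, v3, v4, v5, v6⟩ := cc_vals hn0
  have hpoly := shell_poly hn0 _ r H X hX α
  rw [← ha, v1, v2, v3, v4, v5, v6] at hpoly
  have hCS : ∀ x ∈ X, ⟪x, α⟫ ^ 2 ≤ a := by
    intro x hx
    have h1 := abs_real_inner_le_norm x α
    rw [((hX x).mp hx).2] at h1
    have h2 : |⟪x, α⟫| ^ 2 ≤ (r * ‖α‖) ^ 2 := pow_le_pow_left₀ (abs_nonneg _) h1 2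
    rw [sq_abs, mul_pow] at h2
    exact h2
  by_cases hQ3 : Q3 n a < 0
  · -- first polynomial
    have h1 := hpoly (-576) 1396 (-1093) 303 (-31) 1
    have h2 : 0 ≤ ∑ x ∈ X, ((-576) * ⟪x, α⟫ ^ 2 + 1396 * (⟪x, α⟫ ^ 2) ^ 2 +
        (-1093) * (⟪x, α⟫ ^ 2) ^ 3 + 303 * (⟪x, α⟫ ^ 2) ^ 4 + (-31) * (⟪x, α⟫ ^ 2) ^ 5 +
        1 * (⟪x, α⟫ ^ 2) ^ 6) := by
      refine Finset.sum_nonneg fun x hx => ?_
      obtain ⟨m, hm⟩ := hint x ((hX x).mp hx).1
      rw [hm]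
      have h3 := p3_nonneg m
      nlinarith
    rw [h1, e3_eq n a hn1] at h2
    have h4 : a * Q3 n a / (n * (n + 2) * (n + 4) * (n + 6) * (n + 8) * (n + 10)) < 0 :=
      div_neg_of_neg_of_pos (mul_neg_of_pos_of_neg ha0 hQ3) (by positivity)
    nlinarith
  · have hQ5 : Q5 n a < 0 := hneg.resolve_left hQ3
    -- if all values are below seven the second polynomial gives a contradiction
    have hbig : ∃ x ∈ X, 49 ≤ ⟪x, α⟫ ^ 2 := by
      by_contra hcon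
      push Not at hcon
      have h1 := hpoly 20736 (-30096) 10648 (-1353) 66 (-1)
      have h2 : 0 ≤ ∑ x ∈ X, (20736 * ⟪x, α⟫ ^ 2 + (-30096) * (⟪x, α⟫ ^ 2) ^ 2 +
          10648 * (⟪x, α⟫ ^ 2) ^ 3 + (-1353) * (⟪x, α⟫ ^ 2) ^ 4 + 66 * (⟪x, α⟫ ^ 2) ^ 5 +
          (-1) * (⟪x, α⟫ ^ 2) ^ 6) := by
        refine Finset.sum_nonneg fun x hx => ?_
        obtain ⟨m, hm⟩ := hint x ((hX x).mp hx).1
        have hm49 := hcon x hx
        rw [hm] at hm49 ⊢
        have hm49' : m ^ 2 < 49 := by exact_mod_cast hm49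
        have h3 := p5_nonneg m hm49'
        nlinarith
      rw [h1, e5_eq n a hn1] at h2
      have h4 : a * Q5 n a / (n * (n + 2) * (n + 4) * (n + 6) * (n + 8) * (n + 10)) < 0 :=
        div_neg_of_neg_of_pos (mul_neg_of_pos_of_neg ha0 hQ5) (by positivity)
      nlinarith
    obtain ⟨x, hx, hx49⟩ := hbig
    have ha49 : 49 ≤ a := hx49.trans (hCS x hx)
    obtain ⟨hn47, ha2⟩ := h49 ha49
    have hx49' : ⟪x, α⟫ ^ 2 = 49 := by
      obtain ⟨m, hm⟩ := hint x ((hX x).mp hx).1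
      have h3 := hCS x hx
      rw [hm] at hx49 h3 ⊢
      have h4 : (m : ℝ) ^ 2 < 50 := by linarith
      have h5 : m ^ 2 < 50 := by exact_mod_cast h4
      have h6 : 49 ≤ m ^ 2 := by exact_mod_cast hx49
      have h7 : m ^ 2 = 49 := by omega
      exact_mod_cast h7
    have h1 := hpoly (-1764) 2437 (-735) 63 (-1) 0
    have h2 : ∑ y ∈ X, ((-1764) * ⟪y, α⟫ ^ 2 + 2437 * (⟪y, α⟫ ^ 2) ^ 2 +
        (-735) * (⟪y, α⟫ ^ 2) ^ 3 + 63 * (⟪y, α⟫ ^ 2) ^ 4 + (-1) * (⟪y, α⟫ ^ 2) ^ 5 +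
        0 * (⟪y, α⟫ ^ 2) ^ 6) = 0 := by
      refine Finset.sum_eq_zero fun y hy => ?_
      by_cases h3 : y = x
      · rw [h3, hx49']; norm_num
      by_cases h4 : y = -x
      · rw [h4, inner_neg_left, neg_sq, hx49']; norm_num
      have h5 : ⟪y, α⟫ ^ 2 < 16 := by
        refine others_small x y α r hr ((hX x).mp hx).2 ((hX y).mp hy).2 ?_ ?_ hx49' ha2
        · exact hmin _ (Submodule.sub_mem _ ((hX y).mp hy).1 ((hX x).mp hx).1)
            (sub_ne_zero.mpr h3)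
        · refine hmin _ (Submodule.add_mem _ ((hX y).mp hy).1 ((hX x).mp hx).1) ?_
          intro h0
          exact h4 (eq_neg_of_add_eq_zero_left h0)
      obtain ⟨m, hm⟩ := hint y ((hX y).mp hy).1
      rw [hm] at h5 ⊢
      have h6 : m ^ 2 < 16 := by exact_mod_cast h5
      have h7 : m < 4 := by nlinarith
      have h8 : -4 < m := by nlinarith
      interval_cases m <;> norm_num
    rw [h1, eR_eq n a hn1] at h2
    have hQR : 0 < QR n a := by
      rw [hn47]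
      exact_mod_cast QR_pos a ha49 ha2
    have h4 : 0 < a * QR n a / (n * (n + 2) * (n + 4) * (n + 6) * (n + 8)) := by positivity
    nlinarith

end Pool.Agent.Helper70.Design
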