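import Mathlib
import Pool.Agent.Helper70.Design.Main

set_option autoImplicit false

namespace Pool.Agent.Helper70.Design

open MeasureTheory Metric Set

variable {n : ℕ}

/-- minimal shells: the version for an arbitrary discrete subgroup of full rank -/
theorem main_lattice (hn : 2 ≤ n) (hn' : n ≤ 47)
    (L : Submodule ℤ (EuclideanSpace ℝ (Fin n))) (hd : DiscreteTopology L)
    (hs : Submodule.span ℝ (L : Set (EuclideanSpace ℝ (Fin n))) = ⊤)
    (r : ℝ) (hr : 0 < r) (hex : ∃ v ∈ L, ‖v‖ = r)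
    (hmin : ∀ v ∈ L, v ≠ 0 → r ≤ ‖v‖)
    (H : ShellDesign n L r) : False := by
  haveI : DiscreteTopology L := hd
  haveI : IsZLattice ℝ L := ⟨hs⟩
  haveI := ZLattice.module_finite ℝ L
  haveI := ZLattice.module_free ℝ L
  let b0 := Module.Free.chooseBasis ℤ L
  let b1 := b0.ofZLatticeBasis ℝ L
  have hcard : Fintype.card (Module.Free.ChooseBasisIndex ℤ L) = n := by
    rw [← Module.finrank_eq_card_basis b1, finrank_euclideanSpace, Fintype.card_fin]
  let b := b1.reindex (Fintype.equivFinOfCardEq hcard)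
  have hb : Submodule.span ℤ (range b) = L := by
    rw [Module.Basis.range_reindex]
    exact b0.ofZLatticeBasis_span ℝ
  refine main_basis hn hn' b r hr ?_ ?_ ?_
  · rw [hb]; exact hex
  · rw [hb]; exact hmin
  · rw [hb]; exact H

/-- a nonzero discrete subgroup has a shortest nonzero vector -/
theorem exists_min (hn : 0 < n)
    (L : Submodule ℤ (EuclideanSpace ℝ (Fin n))) (hd : DiscreteTopology L)
    (hs : Submodule.span ℝ (L : Set (EuclideanSpace ℝ (Fin n))) = ⊤) :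
    ∃ r : ℝ, 0 < r ∧ (∃ v ∈ L, ‖v‖ = r) ∧ ∀ v ∈ L, v ≠ 0 → r ≤ ‖v‖ := by
  haveI : DiscreteTopology L := hd
  have hne : ∃ w ∈ L, w ≠ 0 := by
    by_contra hcon
    push Not at hcon
    have h1 : (L : Set (EuclideanSpace ℝ (Fin n))) ⊆ {0} := fun w hw => hcon w hw
    have h2 : (⊤ : Submodule ℝ (EuclideanSpace ℝ (Fin n))) ≤ ⊥ := by
      rw [← hs, Submodule.span_le]
      intro w hw
      have := h1 hw
      simpa using this
    have h3 : Module.finrank ℝ (EuclideanSpace ℝ (Fin n)) = 0 := by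
      rw [← finrank_top, le_bot_iff.mp h2, finrank_bot]
    rw [finrank_euclideanSpace, Fintype.card_fin] at h3
    omega
  obtain ⟨w, hw, hw0⟩ := hne
  have hcl : IsClosed (L : Set (EuclideanSpace ℝ (Fin n))) :=
    AddSubgroup.isClosed_of_discrete (H := L.toAddSubgroup)
  have hfin : ((L : Set (EuclideanSpace ℝ (Fin n))) ∩ closedBall 0 ‖w‖).Finite := by
    have hc : IsCompact ((L : Set (EuclideanSpace ℝ (Fin n))) ∩ closedBall 0 ‖w‖) :=
      (isCompact_closedBall _ _).inter_left hcl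
    refine hc.finite ?_
    have : IsDiscrete (L : Set (EuclideanSpace ℝ (Fin n))) := ⟨hd⟩
    exact this.mono inter_subset_left
  have hfin2 : ({v : EuclideanSpace ℝ (Fin n) | v ∈ L ∧ v ≠ 0 ∧ ‖v‖ ≤ ‖w‖}).Finite := by
    refine hfin.subset ?_
    rintro v ⟨h1, -, h2⟩
    exact ⟨h1, by rw [mem_closedBall, dist_zero_right]; exact h2⟩
  obtain ⟨v, hv, hv2⟩ := hfin2.exists_minimalFor (fun v => ‖v‖) _ ⟨w, hw, hw0, le_rfl⟩
  refine ⟨‖v‖, norm_pos_iff.mpr hv.2.1, ⟨v, hv.1, rfl⟩, fun u hu hu0 => ?_⟩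
  rcases le_total ‖u‖ ‖w‖ with h | h
  · rcases le_total ‖u‖ ‖v‖ with h' | h'
    · exact hv2 ⟨hu, hu0, h⟩ h'
    · exact h'
  · exact hv.2.2.trans h

end Pool.Agent.Helper70.Design
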