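import Mathlib

set_option autoImplicit false

/-!
# Blichfeldt's packing bound for lattices
-/

namespace Pool.Agent.Helper70.Design

open MeasureTheory Metric Set
open scoped RealInnerProductSpace Pointwise

section Fin

variable {F : Type*} [NormedAddCommGroup F] [InnerProductSpace ℝ F]

lemma sum_sq_dist {ι : Type*} (s : Finset ι) (y : ι → F) :
    ∑ i ∈ s, ∑ j ∈ s, ‖y i - y j‖ ^ 2 =
      2 * s.card * ∑ i ∈ s, ‖y i‖ ^ 2 - 2 * ‖∑ i ∈ s, y i‖ ^ 2 := by
  have h1 : ∀ i j, ‖y i - y j‖ ^ 2 = ‖y i‖ ^ 2 - 2 * ⟪y i, y j⟫ + ‖y j‖ ^ 2 := fun i j =>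
    norm_sub_sq_real _ _
  have h2 : ‖∑ i ∈ s, y i‖ ^ 2 = ∑ i ∈ s, ∑ j ∈ s, ⟪y i, y j⟫ := by
    rw [← real_inner_self_eq_norm_sq, sum_inner]
    refine Finset.sum_congr rfl fun i _ => ?_
    rw [inner_sum]
  simp_rw [h1, Finset.sum_add_distrib, Finset.sum_sub_distrib, Finset.sum_const, nsmul_eq_mul,
    ← Finset.mul_sum]
  rw [h2]
  ring

/-- points at mutual distance at least `r` -/
lemma blich_fin {ι : Type*} (s : Finset ι) (y : ι → F) (r : ℝ)
    (h : ∀ i ∈ s, ∀ j ∈ s, i ≠ j → r ^ 2 ≤ ‖y i - y j‖ ^ 2) :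
    ∑ i ∈ s, (r ^ 2 / 2 - ‖y i‖ ^ 2) ≤ r ^ 2 / 2 := by
  classical
  rcases s.eq_empty_or_nonempty with rfl | hs
  · simp only [Finset.sum_empty]; positivity
  have hk : (1 : ℝ) ≤ s.card := by exact_mod_cast hs.card_pos
  have h1 := sum_sq_dist s y
  have h2 : (s.card : ℝ) * (s.card - 1) * r ^ 2 ≤ ∑ i ∈ s, ∑ j ∈ s, ‖y i - y j‖ ^ 2 := by
    have h3 : ∀ i ∈ s, ((s.card : ℝ) - 1) * r ^ 2 ≤ ∑ j ∈ s, ‖y i - y j‖ ^ 2 := by
      intro i hi
      rw [← Finset.add_sum_erase _ _ hi]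
      have h4 : ∑ j ∈ s.erase i, r ^ 2 ≤ ∑ j ∈ s.erase i, ‖y i - y j‖ ^ 2 := by
        refine Finset.sum_le_sum fun j hj => ?_
        exact h i hi j (Finset.mem_of_mem_erase hj) (Finset.ne_of_mem_erase hj).symm
      rw [Finset.sum_const, Finset.card_erase_of_mem hi, nsmul_eq_mul,
        Nat.cast_sub hs.card_pos] at h4
      simp only [sub_self, norm_zero]
      push_cast at h4
      linarith
    have h5 := Finset.sum_le_sum h3
    rw [Finset.sum_const, nsmul_eq_mul] at h5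
    linarith
  have h6 : 0 ≤ ‖∑ i ∈ s, y i‖ ^ 2 := by positivity
  have h7 : (s.card : ℝ) * ((s.card - 1) * r ^ 2) ≤ s.card * (2 * ∑ i ∈ s, ‖y i‖ ^ 2) := by
    nlinarith
  have h8 : ((s.card : ℝ) - 1) * r ^ 2 ≤ 2 * ∑ i ∈ s, ‖y i‖ ^ 2 :=
    le_of_mul_le_mul_left h7 (by linarith)
  rw [Finset.sum_sub_distrib, Finset.sum_const, nsmul_eq_mul]
  linarith

lemma blich_fin' {ι : Type*} (s : Finset ι) (y : ι → F) (r : ℝ)
    (h : ∀ i ∈ s, ∀ j ∈ s, i ≠ j → r ^ 2 ≤ ‖y i - y j‖ ^ 2) :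
    ∑ i ∈ s, ENNReal.ofReal (r ^ 2 / 2 - ‖y i‖ ^ 2) ≤ ENNReal.ofReal (r ^ 2 / 2) := by
  classical
  have h1 : ∑ i ∈ s, ENNReal.ofReal (r ^ 2 / 2 - ‖y i‖ ^ 2) =
      ∑ i ∈ s.filter (fun i => 0 ≤ r ^ 2 / 2 - ‖y i‖ ^ 2),
        ENNReal.ofReal (r ^ 2 / 2 - ‖y i‖ ^ 2) := by
    rw [Finset.sum_filter]
    refine Finset.sum_congr rfl fun i _ => ?_
    split_ifs with h0
    · rfl
    · exact ENNReal.ofReal_of_nonpos (le_of_not_ge h0)
  rw [h1, ← ENNReal.ofReal_sum_of_nonneg (fun i hi => (Finset.mem_filter.1 hi).2)]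
  apply ENNReal.ofReal_le_ofReal
  exact blich_fin _ y r fun i hi j hj hij =>
    h i (Finset.mem_filter.1 hi).1 j (Finset.mem_filter.1 hj).1 hij

end Fin

section Lat

variable {F : Type*} [NormedAddCommGroup F] [InnerProductSpace ℝ F] [FiniteDimensional ℝ F]
  [MeasurableSpace F] [BorelSpace F]

lemma blich_lintegral {ι : Type*} [Finite ι] (b : Module.Basis ι ℝ F) (r : ℝ) (hr : 0 < r)
    (hmin : ∀ v ∈ Submodule.span ℤ (range b), v ≠ 0 → r ≤ ‖v‖) :
    ∫⁻ x : F, ENNReal.ofReal (r ^ 2 / 2 - ‖x‖ ^ 2) ≤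
      ENNReal.ofReal (r ^ 2 / 2) * volume (ZSpan.fundamentalDomain b) := by
  have hc : Countable (Submodule.span ℤ (range b)) := by
    have : DiscreteTopology (Submodule.span ℤ (range b)) := inferInstance
    infer_instance
  have : Countable (Submodule.span ℤ (range b)).toAddSubgroup := hc
  rw [(ZSpan.isAddFundamentalDomain' b volume).lintegral_eq_tsum'' (fun x =>
    ENNReal.ofReal (r ^ 2 / 2 - ‖x‖ ^ 2)), ← lintegral_tsum]
  · refine (lintegral_mono (g := fun _ => ENNReal.ofReal (r ^ 2 / 2)) ?_).trans ?_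
    · intro x
      simp only
      rw [ENNReal.tsum_eq_iSup_sum]
      refine iSup_le fun s => ?_
      refine blich_fin' s (fun g => g +ᵥ x) r ?_
      intro g _ g' _ hgg
      have h1 : (g +ᵥ x) - (g' +ᵥ x) =
          ((g - g' : (Submodule.span ℤ (range b)).toAddSubgroup) : F) := by
        rw [AddSubgroup.vadd_def, AddSubgroup.vadd_def]
        simp
      rw [h1]
      have h2 : r ≤ ‖((g - g' : (Submodule.span ℤ (range b)).toAddSubgroup) : F)‖ :=
        hmin _ (g - g').2 (fun e => hgg (sub_eq_zero.mp (Subtype.ext e)))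
      exact pow_le_pow_left₀ hr.le h2 2
    · rw [setLIntegral_const]
  · intro g
    apply Measurable.aemeasurable
    fun_prop

lemma radial_int (n : ℕ) (hn : 0 < n) (s : ℝ) (hs : 0 < s) :
    ∫ y in Ioi (0 : ℝ), y ^ (n - 1) • max 0 (s ^ 2 - y ^ 2) =
      2 * s ^ (n + 2) / (n * (n + 2)) := by
  have h1 : ∫ y in Ioi (0 : ℝ), y ^ (n - 1) • max 0 (s ^ 2 - y ^ 2) =
      ∫ y in Ioc (0 : ℝ) s, y ^ (n - 1) • max 0 (s ^ 2 - y ^ 2) := by
    apply setIntegral_eq_of_subset_of_forall_sdiff_eq_zero measurableSet_Ioi Ioc_subset_Ioi_self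
    intro x hx
    have hx0 : 0 < x := hx.1
    have hxs : s < x := by
      by_contra h
      exact hx.2 ⟨hx0, not_lt.mp h⟩
    have : s ^ 2 - x ^ 2 ≤ 0 := by nlinarith
    rw [max_eq_left this, smul_zero]
  have h2 : ∫ y in Ioc (0 : ℝ) s, y ^ (n - 1) • max 0 (s ^ 2 - y ^ 2) =
      ∫ y in Ioc (0 : ℝ) s, (s ^ 2 * y ^ (n - 1) - y ^ (n + 1)) := by
    apply setIntegral_congr_fun measurableSet_Ioc
    intro y hy
    have : 0 ≤ s ^ 2 - y ^ 2 := by nlinarith [hy.1, hy.2]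
    simp only
    rw [max_eq_right this, smul_eq_mul]
    have : n + 1 = (n - 1) + 2 := by omega
    rw [this, pow_add]
    ring
  rw [h1, h2, ← intervalIntegral.integral_of_le hs.le, intervalIntegral.integral_sub,
    intervalIntegral.integral_const_mul, integral_pow, integral_pow]
  · have hn1 : n - 1 + 1 = n := by omega
    have hn2 : ((n - 1 : ℕ) : ℝ) + 1 = n := by exact_mod_cast hn1
    rw [hn1, hn2, zero_pow hn.ne', zero_pow (by omega)]
    have : (n : ℝ) ≠ 0 := by positivity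
    push_cast
    field_simp
    ring
  · apply Continuous.intervalIntegrable
    fun_prop
  · apply Continuous.intervalIntegrable
    fun_prop

/-- Blichfeldt's bound -/
theorem blichfeldt {ι : Type*} [Finite ι] [Nontrivial F] (b : Module.Basis ι ℝ F) (s : ℝ)
    (hs : 0 < s)
    (hmin : ∀ v ∈ Submodule.span ℤ (range b), v ≠ 0 → Real.sqrt 2 * s ≤ ‖v‖) :
    (volume (ball (0 : F) 1)).toReal * s ^ (Module.finrank ℝ F) * (2 / (Module.finrank ℝ F + 2)) ≤
      (volume (ZSpan.fundamentalDomain b)).toReal := by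
  set n := Module.finrank ℝ F with hn
  have hn0 : 0 < n := Module.finrank_pos
  have h1 := blich_lintegral b (Real.sqrt 2 * s) (by positivity) hmin
  have h2 : (Real.sqrt 2 * s) ^ 2 / 2 = s ^ 2 := by
    rw [mul_pow, Real.sq_sqrt (by norm_num)]; ring
  rw [h2] at h1
  have h3 : ∫⁻ x : F, ENNReal.ofReal (s ^ 2 - ‖x‖ ^ 2) =
      ENNReal.ofReal (∫ x : F, max 0 (s ^ 2 - ‖x‖ ^ 2)) := by
    rw [ofReal_integral_eq_lintegral_ofReal]
    · refine lintegral_congr fun x => ?_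
      rcases le_total 0 (s ^ 2 - ‖x‖ ^ 2) with h | h
      · rw [max_eq_right h]
      · rw [max_eq_left h, ENNReal.ofReal_of_nonpos h, ENNReal.ofReal_zero]
    · apply Continuous.integrable_of_hasCompactSupport (by fun_prop)
      apply HasCompactSupport.of_support_subset_isCompact (isCompact_closedBall (0 : F) s)
      intro x hx
      rw [Function.mem_support] at hx
      rw [mem_closedBall, dist_zero_right]
      by_contra h
      apply hx
      have : s ^ 2 - ‖x‖ ^ 2 ≤ 0 := by nlinarith [not_le.mp h]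
      exact max_eq_left this
    · exact Filter.Eventually.of_forall fun x => le_max_left _ _
  have h4 : ∫ x : F, max 0 (s ^ 2 - ‖x‖ ^ 2) =
      (volume (ball (0 : F) 1)).toReal * (2 * s ^ (n + 2) / (n + 2)) := by
    have h5 := integral_fun_norm_addHaar (volume : Measure F) (fun y : ℝ => max 0 (s ^ 2 - y ^ 2))
    rw [← hn, radial_int n hn0 s hs] at h5
    rw [h5, nsmul_eq_mul, smul_eq_mul]
    have : (n : ℝ) ≠ 0 := by positivity
    rw [Measure.real]
    field_simp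
  rw [h3, h4] at h1
  have hfin : volume (ZSpan.fundamentalDomain b) ≠ ⊤ :=
    (ZSpan.fundamentalDomain_isBounded b).measure_lt_top.ne
  have h6 := ENNReal.toReal_mono (ENNReal.mul_ne_top ENNReal.ofReal_ne_top hfin) h1
  rw [ENNReal.toReal_mul, ENNReal.toReal_ofReal (by positivity),
    ENNReal.toReal_ofReal (by positivity)] at h6
  have hs2 : 0 < s ^ 2 := by positivity
  have h7 : s ^ 2 * ((volume (ball (0 : F) 1)).toReal * s ^ n * (2 / (n + 2))) ≤
      s ^ 2 * (volume (ZSpan.fundamentalDomain b)).toReal := by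
    refine le_trans (le_of_eq ?_) h6
    rw [pow_add]
    ring
  exact le_of_mul_le_mul_left h7 hs2

end Lat

end Pool.Agent.Helper70.Design
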