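import Mathlib

set_option autoImplicit false

/-!
# Numerical part
-/

namespace Pool.Agent.Helper70.Design


/-- scaled expectation of `Y (Y-1)^2 (Y-4) (Y-9) (Y-16)` -/
noncomputable def Q3 (n a : ℝ) : ℝ :=
  (-576) * ((n + 2) * (n + 4) * (n + 6) * (n + 8) * (n + 10)) +
  (4188) * ((n + 4) * (n + 6) * (n + 8) * (n + 10)) * a +
  (-16395) * ((n + 6) * (n + 8) * (n + 10)) * a ^ 2 +
  (31815) * ((n + 8) * (n + 10)) * a ^ 3 +
  (-29295) * ((n + 10)) * a ^ 4 +
  (10395) * a ^ 5

/-- scaled expectation of `Y (Y-1) (Y-4) (Y-9) (Y-16) (36-Y)` -/
noncomputable def Q5 (n a : ℝ) : ℝ :=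
  (20736) * ((n + 2) * (n + 4) * (n + 6) * (n + 8) * (n + 10)) +
  (-90288) * ((n + 4) * (n + 6) * (n + 8) * (n + 10)) * a +
  (159720) * ((n + 6) * (n + 8) * (n + 10)) * a ^ 2 +
  (-142065) * ((n + 8) * (n + 10)) * a ^ 3 +
  (62370) * ((n + 10)) * a ^ 4 +
  (-10395) * a ^ 5

/-- scaled expectation of `Y (Y-1) (Y-4) (Y-9) (49-Y)` -/
noncomputable def QR (n a : ℝ) : ℝ :=
  (-1764) * ((n + 2) * (n + 4) * (n + 6) * (n + 8)) +
  (7311) * ((n + 4) * (n + 6) * (n + 8)) * a +
  (-11025) * ((n + 6) * (n + 8)) * a ^ 2 +
  (6615) * ((n + 8)) * a ^ 3 +
  (-945) * a ^ 4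


lemma bern5 (b0 b1 b2 b3 b4 b5 x y : ℝ) (hx : 0 ≤ x) (hy : 0 ≤ y) (hxy : 0 < x + y)
    (h0 : b0 < 0) (h1 : b1 < 0) (h2 : b2 < 0) (h3 : b3 < 0) (h4 : b4 < 0) (h5 : b5 < 0) :
    b0 * y ^ 5 + b1 * x * y ^ 4 + b2 * x ^ 2 * y ^ 3 + b3 * x ^ 3 * y ^ 2 + b4 * x ^ 4 * y +
      b5 * x ^ 5 < 0 := by
  have e1 : 0 ≤ -b1 * x * y ^ 4 := by have := h1.le; have : 0 ≤ -b1 := by linarith
                                      positivity
  have e2 : 0 ≤ -b2 * x ^ 2 * y ^ 3 := by have : 0 ≤ -b2 := by linarith
                                          positivity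
  have e3 : 0 ≤ -b3 * x ^ 3 * y ^ 2 := by have : 0 ≤ -b3 := by linarith
                                          positivity
  have e4 : 0 ≤ -b4 * x ^ 4 * y := by have : 0 ≤ -b4 := by linarith
                                      positivity
  have e0 : 0 ≤ -b0 * y ^ 5 := by have : 0 ≤ -b0 := by linarith
                                  positivity
  have e5 : 0 ≤ -b5 * x ^ 5 := by have : 0 ≤ -b5 := by linarith
                                  positivity
  rcases hx.eq_or_lt with hx0 | hx0
  · have hy0 : 0 < y := by linarith
    have e0' : 0 < -b0 * y ^ 5 := by have : 0 < -b0 := by linarith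
                                     positivity
    linarith
  · have e5' : 0 < -b5 * x ^ 5 := by have : 0 < -b5 := by linarith
                                     positivity
    linarith

lemma neg_2 (a : ℝ) (h0 : 0 < a) (h1 : a < (163/100)) : Q3 2 a < 0 ∨ Q5 2 a < 0 := by
  left
  have h := bern5 (-13271040) (-135174528/5) (-431167572/25) (-28535745717/5000) (-19700871257097/5000000) (-3192507516206403/2000000000) a ((163/100) - a)
    (by linarith) (by linarith) (by linarith)
    (by norm_num) (by norm_num) (by norm_num) (by norm_num) (by norm_num) (by norm_num)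
  have e : Q3 2 a * (115063617043/10000000000) < 0 := by
    refine lt_of_eq_of_lt ?_ h
    unfold Q3
    ring
  linarith

lemma neg_3 (a : ℝ) (h0 : 0 < a) (h1 : a < (201/100)) : Q3 3 a < 0 ∨ Q5 3 a < 0 := by
  left
  have h := bern5 (-25945920) (-1347322977/25) (-82720121913/2000) (-4647365742591/200000) (-289033902617967/20000000) (-8573777435205621/2000000000) a ((201/100) - a)
    (by linarith) (by linarith) (by linarith)
    (by norm_num) (by norm_num) (by norm_num) (by norm_num) (by norm_num) (by norm_num)
  have e : Q3 3 a * (328080401001/10000000000) < 0 := by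
    refine lt_of_eq_of_lt ?_ h
    unfold Q3
    ring
  linarith

lemma neg_4 (a : ℝ) (h0 : 0 < a) (h1 : a < (61/25)) : Q3 4 a < 0 ∨ Q5 4 a < 0 := by
  left
  have h := bern5 (-46448640) (-474518016/5) (-1977789744/25) (-171109536696/3125) (-2662792938666/78125) (-17746671071871/1953125) a ((61/25) - a)
    (by linarith) (by linarith) (by linarith)
    (by norm_num) (by norm_num) (by norm_num) (by norm_num) (by norm_num) (by norm_num)
  have e : Q3 4 a * (844596301/9765625) < 0 := by
    refine lt_of_eq_of_lt ?_ h
    unfold Q3
    ring
  linarith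

lemma neg_5 (a : ℝ) (h0 : 0 < a) (h1 : a < (289/100)) : Q3 5 a < 0 ∨ Q5 5 a < 0 := by
  left
  have h := bern5 (-77837760) (-777671037/5) (-54991930851/400) (-4314566768967/40000) (-267560435203857/4000000) (-33427387289545029/2000000000) a ((289/100) - a)
    (by linarith) (by linarith) (by linarith)
    (by norm_num) (by norm_num) (by norm_num) (by norm_num) (by norm_num) (by norm_num)
  have e : Q3 5 a * (2015993900449/10000000000) < 0 := by
    refine lt_of_eq_of_lt ?_ h
    unfold Q3
    ring
  linarith

lemma neg_6 (a : ℝ) (h0 : 0 < a) (h1 : a < (169/50)) : Q3 6 a < 0 ∨ Q5 6 a < 0 := by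
  left
  have h := bern5 (-123863040) (-1194084864/5) (-27513507168/125) (-596451198924/3125) (-9260404300539/78125) (-1764824441397129/62500000) a ((169/50) - a)
    (by linarith) (by linarith) (by linarith)
    (by norm_num) (by norm_num) (by norm_num) (by norm_num) (by norm_num) (by norm_num)
  have e : Q3 6 a * (137858491849/312500000) < 0 := by
    refine lt_of_eq_of_lt ?_ h
    unfold Q3
    ring
  linarith

lemma neg_7 (a : ℝ) (h0 : 0 < a) (h1 : a < (39/10)) : Q3 7 a < 0 ∨ Q5 7 a < 0 := by
  left
  have h := bern5 (-189034560) (-349582662) (-1338559209/4) (-12620974743/40) (-391000020723/2000) (-893770731009/20000) a ((39/10) - a)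
    (by linarith) (by linarith) (by linarith)
    (by norm_num) (by norm_num) (by norm_num) (by norm_num) (by norm_num) (by norm_num)
  have e : Q3 7 a * (90224199/100000) < 0 := by
    refine lt_of_eq_of_lt ?_ h
    unfold Q3
    ring
  linarith

lemma neg_8 (a : ℝ) (h0 : 0 < a) (h1 : a < (111/25)) : Q3 8 a < 0 ∨ Q5 8 a < 0 := by
  left
  have h := bern5 (-278691840) (-12344306688/25) (-61416387648/125) (-1550875074336/3125) (-23837734634742/78125) (-131166182364021/1953125) a ((111/25) - a)
    (by linarith) (by linarith) (by linarith)
    (by norm_num) (by norm_num) (by norm_num) (by norm_num) (by norm_num) (by norm_num)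
  have e : Q3 8 a * (16850581551/9765625) < 0 := by
    refine lt_of_eq_of_lt ?_ h
    unfold Q3
    ring
  linarith

lemma neg_9 (a : ℝ) (h0 : 0 < a) (h1 : a < (503/100)) : Q3 9 a < 0 ∨ Q5 9 a < 0 := by
  left
  have h := bern5 (-399072960) (-3342727323/5) (-277279302519/400) (-150252079655277/200000) (-9160914575056401/20000000) (-194080822343867403/2000000000) a ((503/100) - a)
    (by linarith) (by linarith) (by linarith)
    (by norm_num) (by norm_num) (by norm_num) (by norm_num) (by norm_num) (by norm_num)
  have e : Q3 9 a * (32198817702743/10000000000) < 0 := by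
    refine lt_of_eq_of_lt ?_ h
    unfold Q3
    ring
  linarith

lemma neg_10 (a : ℝ) (h0 : 0 < a) (h1 : a < (141/25)) : Q3 10 a < 0 ∨ Q5 10 a < 0 := by
  left
  have h := bern5 (-557383680) (-4410878976/5) (-23970307968/25) (-689005409544/625) (-10359506754396/15625) (-264252739973121/1953125) a ((141/25) - a)
    (by linarith) (by linarith) (by linarith)
    (by norm_num) (by norm_num) (by norm_num) (by norm_num) (by norm_num) (by norm_num)
  have e : Q3 10 a * (55730836701/9765625) < 0 := by
    refine lt_of_eq_of_lt ?_ h
    unfold Q3
    ring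
  linarith

lemma neg_11 (a : ℝ) (h0 : 0 < a) (h1 : a < (157/25)) : Q3 11 a < 0 ∨ Q5 11 a < 0 := by
  left
  have h := bern5 (-761866560) (-5666870916/5) (-162583565193/125) (-4926303920034/3125) (-72801517592664/78125) (-357551653847472/1953125) a ((157/25) - a)
    (by linarith) (by linarith) (by linarith)
    (by norm_num) (by norm_num) (by norm_num) (by norm_num) (by norm_num) (by norm_num)
  have e : Q3 11 a * (95388992557/9765625) < 0 := by
    refine lt_of_eq_of_lt ?_ h
    unfold Q3
    ring
  linarith

lemma neg_12 (a : ℝ) (h0 : 0 < a) (h1 : a < (139/20)) : Q3 12 a < 0 ∨ Q5 12 a < 0 := by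
  left
  have h := bern5 (-1021870080) (-1420962048) (-1737149733) (-88200577773/40) (-20428118497809/16000) (-154395557015139/640000) a ((139/20) - a)
    (by linarith) (by linarith) (by linarith)
    (by norm_num) (by norm_num) (by norm_num) (by norm_num) (by norm_num) (by norm_num)
  have e : Q3 12 a * (51888844699/3200000) < 0 := by
    refine lt_of_eq_of_lt ?_ h
    unfold Q3
    ring
  linarith

lemma neg_13 (a : ℝ) (h0 : 0 < a) (h1 : a < (383/50)) : Q3 13 a < 0 ∨ Q5 13 a < 0 := by
  left
  have h := bern5 (-1347917760) (-43370189982/25) (-1144101279447/500) (-75708069433227/25000) (-2139255019163997/1250000) (-19391032785772053/62500000) a ((383/50) - a)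
    (by linarith) (by linarith) (by linarith)
    (by norm_num) (by norm_num) (by norm_num) (by norm_num) (by norm_num) (by norm_num)
  have e : Q3 13 a * (8241264822143/312500000) < 0 := by
    refine lt_of_eq_of_lt ?_ h
    unfold Q3
    ring
  linarith

lemma neg_14 (a : ℝ) (h0 : 0 < a) (h1 : a < (839/100)) : Q3 14 a < 0 ∨ Q5 14 a < 0 := by
  left
  have h := bern5 (-1751777280) (-10399923072/5) (-74730860028/25) (-51058165356099/12500) (-5616125694873657/2500000) (-781348669245219879/2000000000) a ((839/100) - a)
    (by linarith) (by linarith) (by linarith)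
    (by norm_num) (by norm_num) (by norm_num) (by norm_num) (by norm_num) (by norm_num)
  have e : Q3 14 a * (415728505588199/10000000000) < 0 := by
    refine lt_of_eq_of_lt ?_ h
    unfold Q3
    ring
  linarith

lemma neg_15 (a : ℝ) (h0 : 0 < a) (h1 : a < (229/25)) : Q3 15 a < 0 ∨ Q5 15 a < 0 := by
  left
  have h := bern5 (-2246529600) (-2431427796) (-19355876757/5) (-678778378614/125) (-9050065101504/3125) (-940860499459104/1953125) a ((229/25) - a)
    (by linarith) (by linarith) (by linarith)
    (by norm_num) (by norm_num) (by norm_num) (by norm_num) (by norm_num) (by norm_num)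
  have e : Q3 15 a * (629763392149/9765625) < 0 := by
    refine lt_of_eq_of_lt ?_ h
    unfold Q3
    ring
  linarith

lemma neg_16 (a : ℝ) (h0 : 0 < a) (h1 : a < (199/20)) : Q3 16 a < 0 ∨ Q5 16 a < 0 := by
  left
  have h := bern5 (-2846638080) (-2792110464) (-24923045862/5) (-711128747277/100) (-58712057372007/16000) (-373492366406559/640000) a ((199/20) - a)
    (by linarith) (by linarith) (by linarith)
    (by norm_num) (by norm_num) (by norm_num) (by norm_num) (by norm_num) (by norm_num)
  have e : Q3 16 a * (312079600999/3200000) < 0 := by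
    refine lt_of_eq_of_lt ?_ h
    unfold Q3
    ring
  linarith

lemma neg_17 (a : ℝ) (h0 : 0 < a) (h1 : a < (539/50)) : Q3 17 a < 0 ∨ Q5 17 a < 0 := by
  left
  have h := bern5 (-3568017600) (-3121154694) (-127664856459/20) (-9200517009831/1000) (-5721672409321113/1250000) (-43353131972785929/62500000) a ((539/50) - a)
    (by linarith) (by linarith) (by linarith)
    (by norm_num) (by norm_num) (by norm_num) (by norm_num) (by norm_num) (by norm_num)
  have e : Q3 17 a * (45492921326699/312500000) < 0 := by
    refine lt_of_eq_of_lt ?_ h
    unfold Q3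
    ring
  linarith

lemma neg_18 (a : ℝ) (h0 : 0 < a) (h1 : a < (1163/100)) : Q3 18 a < 0 ∨ Q5 18 a < 0 := by
  left
  have h := bern5 (-4428103680) (-85463554176/25) (-1017242019612/125) (-293749040952549/25000) (-28129767016277493/5000000) (-1623610959873649803/2000000000) a ((1163/100) - a)
    (by linarith) (by linarith) (by linarith)
    (by norm_num) (by norm_num) (by norm_num) (by norm_num) (by norm_num) (by norm_num)
  have e : Q3 18 a * (2127642092422043/10000000000) < 0 := by
    refine lt_of_eq_of_lt ?_ h
    unfold Q3
    ring
  linarith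

lemma neg_19 (a : ℝ) (h0 : 0 < a) (h1 : a < (313/25)) : Q3 19 a < 0 ∨ Q5 19 a < 0 := by
  left
  have h := bern5 (-5445921600) (-3622618404) (-51687482913/5) (-46398435608862/3125) (-532619173194696/78125) (-1822390225810128/1953125) a ((313/25) - a)
    (by linarith) (by linarith) (by linarith)
    (by norm_num) (by norm_num) (by norm_num) (by norm_num) (by norm_num) (by norm_num)
  have e : Q3 19 a * (3004150512793/9765625) < 0 := by
    refine lt_of_eq_of_lt ?_ h
    unfold Q3
    ring
  linarith

lemma neg_20 (a : ℝ) (h0 : 0 < a) (h1 : a < (1343/100)) : Q3 20 a < 0 ∨ Q5 20 a < 0 := by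
  left
  have h := bern5 (-6642155520) (-18647411328/5) (-326976410943/25) (-92734080588639/5000) (-16307841313479177/2000000) (-2114558901900010503/2000000000) a ((1343/100) - a)
    (by linarith) (by linarith) (by linarith)
    (by norm_num) (by norm_num) (by norm_num) (by norm_num) (by norm_num) (by norm_num)
  have e : Q3 20 a * (4368980067514943/10000000000) < 0 := by
    refine lt_of_eq_of_lt ?_ h
    unfold Q3
    ring
  linarith

lemma neg_21 (a : ℝ) (h0 : 0 < a) (h1 : a < (719/50)) : Q3 21 a < 0 ∨ Q5 21 a < 0 := by
  left
  have h := bern5 (-8039217600) (-3650999022) (-8251439327487/500) (-573650019141867/25000) (-12029201754237909/1250000) (-73545029500636629/62500000) a ((719/50) - a)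
    (by linarith) (by linarith) (by linarith)
    (by norm_num) (by norm_num) (by norm_num) (by norm_num) (by norm_num) (by norm_num)
  have e : Q3 21 a * (192151797699599/312500000) < 0 := by
    refine lt_of_eq_of_lt ?_ h
    unfold Q3
    ring
  linarith

lemma neg_22 (a : ℝ) (h0 : 0 < a) (h1 : a < (307/20)) : Q3 22 a < 0 ∨ Q5 22 a < 0 := by
  left
  have h := bern5 (-9661317120) (-3378525696) (-20739201840) (-140468530293/5) (-11222082553059/1000) (-826715665653507/640000) a ((307/20) - a)
    (by linarith) (by linarith) (by linarith)
    (by norm_num) (by norm_num) (by norm_num) (by norm_num) (by norm_num) (by norm_num)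
  have e : Q3 22 a * (2727042318307/3200000) < 0 := by
    refine lt_of_eq_of_lt ?_ h
    unfold Q3
    ring
  linarith

lemma neg_23 (a : ℝ) (h0 : 0 < a) (h1 : a < (409/25)) : Q3 23 a < 0 ∨ Q5 23 a < 0 := by
  left
  have h := bern5 (-11534529600) (-69774291972/25) (-3250100514573/125) (-106524691895754/3125) (-1009215293823792/78125) (-2718336306638304/1953125) a ((409/25) - a)
    (by linarith) (by linarith) (by linarith)
    (by norm_num) (by norm_num) (by norm_num) (by norm_num) (by norm_num) (by norm_num)
  have e : Q3 23 a * (11445019581049/9765625) < 0 := by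
    refine lt_of_eq_of_lt ?_ h
    unfold Q3
    ring
  linarith

lemma neg_24 (a : ℝ) (h0 : 0 < a) (h1 : a < (1739/100)) : Q3 24 a < 0 ∨ Q5 24 a < 0 := by
  left
  have h := bern5 (-13686865920) (-9370787328/5) (-811465112232/25) (-128008031517351/3125) (-147016364715157923/10000000) (-2956986518159303379/2000000000) a ((1739/100) - a)
    (by linarith) (by linarith) (by linarith)
    (by norm_num) (by norm_num) (by norm_num) (by norm_num) (by norm_num) (by norm_num)
  have e : Q3 24 a * (15903690303572699/10000000000) < 0 := by
    refine lt_of_eq_of_lt ?_ h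
    unfold Q3
    ring
  linarith

lemma neg_25 (a : ℝ) (h0 : 0 < a) (h1 : a < (369/20)) : Q3 25 a < 0 ∨ Q5 25 a < 0 := by
  left
  have h := bern5 (-16148341440) (-510242733) (-646106316471/16) (-15610980100023/320) (-105800464514493/6400) (-987882224810229/640000) a ((369/20) - a)
    (by linarith) (by linarith) (by linarith)
    (by norm_num) (by norm_num) (by norm_num) (by norm_num) (by norm_num) (by norm_num)
  have e : Q3 25 a * (6841192812849/3200000) < 0 := by
    refine lt_of_eq_of_lt ?_ h
    unfold Q3
    ring
  linarith

lemma neg_26 (a : ℝ) (h0 : 0 < a) (h1 : a < (977/50)) : Q3 26 a < 0 ∨ Q5 26 a < 0 := by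
  rcases le_or_gt a (39/4) with hv | hv
  · left
    have h := bern5 (-18951045120) (-46774817280) (-58634092080) (-389363790375/8) (-1492044038775/64) (-4646026501875/1024) a ((39/4) - a)
      (by linarith) (by linarith) (by linarith)
      (by norm_num) (by norm_num) (by norm_num) (by norm_num) (by norm_num) (by norm_num)
    have e : Q3 26 a * (90224199/1024) < 0 := by
      refine lt_of_eq_of_lt ?_ h
      unfold Q3
      ring
    linarith
  left
  have h := bern5 (-4646026501875/1024) (-11292462102537/512) (-139669021706247/3200) (-7351790700038301/200000) (-65738047939142931/5000000) (-98870571817776297/62500000) (a - (39/4)) ((977/50) - a)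
    (by linarith) (by linarith) (by linarith)
    (by norm_num) (by norm_num) (by norm_num) (by norm_num) (by norm_num) (by norm_num)
  have e : Q3 26 a * (899318358320899/10000000000) < 0 := by
    refine lt_of_eq_of_lt ?_ h
    unfold Q3
    ring
  linarith

lemma neg_27 (a : ℝ) (h0 : 0 < a) (h1 : a < (2067/100)) : Q3 27 a < 0 ∨ Q5 27 a < 0 := by
  rcases le_or_gt a (41/4) with hv | hv
  · left
    have h := bern5 (-22129208640) (-53776997505) (-1078830844245/16) (-3618722127195/64) (-6971039614035/256) (-5418117445545/1024) a ((41/4) - a)
      (by linarith) (by linarith) (by linarith)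
      (by norm_num) (by norm_num) (by norm_num) (by norm_num) (by norm_num) (by norm_num)
    have e : Q3 27 a * (115856201/1024) < 0 := by
      refine lt_of_eq_of_lt ?_ h
      unfold Q3
      ring
    linarith
  left
  have h := bern5 (-5418117445545/1024) (-131419271650779/5120) (-3219783450991569/64000) (-65826388917824787/1600000) (-1125516639403489977/80000000) (-3165933861230336847/2000000000) (a - (41/4)) ((2067/100) - a)
    (by linarith) (by linarith) (by linarith)
    (by norm_num) (by norm_num) (by norm_num) (by norm_num) (by norm_num) (by norm_num)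
  have e : Q3 27 a * (38387392786601/312500000) < 0 := by
    refine lt_of_eq_of_lt ?_ h
    unfold Q3
    ring
  linarith

lemma neg_28 (a : ℝ) (h0 : 0 < a) (h1 : a < (1091/50)) : Q3 28 a < 0 ∨ Q5 28 a < 0 := by
  rcases le_or_gt a 11 with hv | hv
  · left
    have h := bern5 (-25719275520) (-60029503488) (-75195531792) (-64673323128) (-31580194842) (-6118050393) a (11 - a)
      (by linarith) (by linarith) (by linarith)
      (by norm_num) (by norm_num) (by norm_num) (by norm_num) (by norm_num) (by norm_num)
    have e : Q3 28 a * 161051 < 0 := by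
      refine lt_of_eq_of_lt ?_ h
      unfold Q3
      ring
    linarith
  left
  have h := bern5 (-6118050393) (-1480825407663/50) (-14208433353369/250) (-562050669479427/12500) (-18405315187413417/1250000) (-97119559394196471/62500000) (a - 11) ((1091/50) - a)
    (by linarith) (by linarith) (by linarith)
    (by norm_num) (by norm_num) (by norm_num) (by norm_num) (by norm_num) (by norm_num)
  have e : Q3 28 a * (46343232758701/312500000) < 0 := by
    refine lt_of_eq_of_lt ?_ h
    unfold Q3
    ring
  linarith

lemma neg_29 (a : ℝ) (h0 : 0 < a) (h1 : a < 23) : Q3 29 a < 0 ∨ Q5 29 a < 0 := by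
  rcases le_or_gt a (23/2) with hv | hv
  · left
    have h := bern5 (-29759970240) (-68529931470) (-344107686195/4) (-597431675295/8) (-585272203425/16) (-226134650385/32) a ((23/2) - a)
      (by linarith) (by linarith) (by linarith)
      (by norm_num) (by norm_num) (by norm_num) (by norm_num) (by norm_num) (by norm_num)
    have e : Q3 29 a * (6436343/32) < 0 := by
      refine lt_of_eq_of_lt ?_ h
      unfold Q3
      ring
    linarith
  left
  have h := bern5 (-226134650385/32) (-136350262125/4) (-517689365445/8) (-98950311495/2) (-15361977330) (-1486328760) (a - (23/2)) (23 - a)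
    (by linarith) (by linarith) (by linarith)
    (by norm_num) (by norm_num) (by norm_num) (by norm_num) (by norm_num) (by norm_num)
  have e : Q3 29 a * (6436343/32) < 0 := by
    refine lt_of_eq_of_lt ?_ h
    unfold Q3
    ring
  linarith

lemma neg_30 (a : ℝ) (h0 : 0 < a) (h1 : a < (2421/100)) : Q3 30 a < 0 ∨ Q5 30 a < 0 := by
  rcases le_or_gt a 12 with hv | hv
  · left
    have h := bern5 (-34292367360) (-77961553920) (-98109895680) (-85920030720) (-42193198080) (-8127267840) a (12 - a)
      (by linarith) (by linarith) (by linarith)
      (by norm_num) (by norm_num) (by norm_num) (by norm_num) (by norm_num) (by norm_num)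
    have e : Q3 30 a * 248832 < 0 := by
      refine lt_of_eq_of_lt ?_ h
      unfold Q3
      ring
    linarith
  left
  have h := bern5 (-8127267840) (-195261176448/5) (-1832509818648/25) (-134926042860117/2500) (-15794366357920761/1000000) (-2756752563907482021/2000000000) (a - 12) ((2421/100) - a)
    (by linarith) (by linarith) (by linarith)
    (by norm_num) (by norm_num) (by norm_num) (by norm_num) (by norm_num) (by norm_num)
  have e : Q3 30 a * (2713803009370101/10000000000) < 0 := by
    refine lt_of_eq_of_lt ?_ h
    unfold Q3
    ring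
  linarith

lemma neg_31 (a : ℝ) (h0 : 0 < a) (h1 : a < (509/20)) : Q3 31 a < 0 ∨ Q5 31 a < 0 := by
  rcases le_or_gt a (51/4) with hv | hv
  · left
    have h := bern5 (-39359960640) (-86230368315) (-1744061048145/16) (-6258399741945/64) (-12397064255055/256) (-9491933287035/1024) a ((51/4) - a)
      (by linarith) (by linarith) (by linarith)
      (by norm_num) (by norm_num) (by norm_num) (by norm_num) (by norm_num) (by norm_num)
    have e : Q3 31 a * (345025251/1024) < 0 := by
      refine lt_of_eq_of_lt ?_ h
      unfold Q3
      ring
    linarith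
  left
  have h := bern5 (-9491933287035/1024) (-45339423264189/1024) (-207912217414059/2560) (-733906976576589/12800) (-2021398028921691/128000) (-787037793663609/640000) (a - (51/4)) ((509/20) - a)
    (by linarith) (by linarith) (by linarith)
    (by norm_num) (by norm_num) (by norm_num) (by norm_num) (by norm_num) (by norm_num)
  have e : Q3 31 a * (33038369407/100000) < 0 := by
    refine lt_of_eq_of_lt ?_ h
    unfold Q3
    ring
  linarith

lemma neg_32 (a : ℝ) (h0 : 0 < a) (h1 : a < (2671/100)) : Q3 32 a < 0 ∨ Q5 32 a < 0 := by
  rcases le_or_gt a (53/4) with hv | hv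
  · left
    have h := bern5 (-45008732160) (-97512024960) (-123714462690) (-447299455365/4) (-7095564126315/128) (-10828948254705/1024) a ((53/4) - a)
      (by linarith) (by linarith) (by linarith)
      (by norm_num) (by norm_num) (by norm_num) (by norm_num) (by norm_num) (by norm_num)
    have e : Q3 32 a * (418195493/1024) < 0 := by
      refine lt_of_eq_of_lt ?_ h
      unfold Q3
      ring
    linarith
  left
  have h := bern5 (-10828948254705/1024) (-257417243129907/5120) (-5828018868903609/64000) (-98331113319888267/1600000) (-1259040126325363137/80000000) (-2099366839390024071/2000000000) (a - (53/4)) ((2671/100) - a)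
    (by linarith) (by linarith) (by linarith)
    (by norm_num) (by norm_num) (by norm_num) (by norm_num) (by norm_num) (by norm_num)
  have e : Q3 32 a * (138062368994593/312500000) < 0 := by
    refine lt_of_eq_of_lt ?_ h
    unfold Q3
    ring
  linarith

lemma neg_33 (a : ℝ) (h0 : 0 < a) (h1 : a < (2801/100)) : Q3 33 a < 0 ∨ Q5 33 a < 0 := by
  rcases le_or_gt a 14 with hv | hv
  · left
    have h := bern5 (-51287221440) (-107275771512) (-137175990588) (-126835022412) (-63201110868) (-11962848492) a (14 - a)
      (by linarith) (by linarith) (by linarith)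
      (by norm_num) (by norm_num) (by norm_num) (by norm_num) (by norm_num) (by norm_num)
    have e : Q3 33 a * 537824 < 0 := by
      refine lt_of_eq_of_lt ?_ h
      unfold Q3
      ring
    linarith
  left
  have h := bern5 (-11962848492) (-1410623871507/25) (-199442673331497/2000) (-12791763546153363/200000) (-302726355282468207/20000000) (-1652109181127235621/2000000000) (a - 14) ((2801/100) - a)
    (by linarith) (by linarith) (by linarith)
    (by norm_num) (by norm_num) (by norm_num) (by norm_num) (by norm_num) (by norm_num)
  have e : Q3 33 a * (5397475459607001/10000000000) < 0 := by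
    refine lt_of_eq_of_lt ?_ h
    unfold Q3
    ring
  linarith

lemma neg_34 (a : ℝ) (h0 : 0 < a) (h1 : a < (1467/50)) : Q3 34 a < 0 ∨ Q5 34 a < 0 := by
  rcases le_or_gt a (59/4) with hv | hv
  · left
    have h := bern5 (-58246594560) (-117715086720) (-152062398180) (-1149516262125/8) (-4597190680005/64) (-13801491004455/1024) a ((59/4) - a)
      (by linarith) (by linarith) (by linarith)
      (by norm_num) (by norm_num) (by norm_num) (by norm_num) (by norm_num) (by norm_num)
    have e : Q3 34 a * (714924299/1024) < 0 := by
      refine lt_of_eq_of_lt ?_ h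
      unfold Q3
      ring
    linarith
  left
  have h := bern5 (-13801491004455/1024) (-161272972544607/2560) (-1736723118478887/16000) (-526285497893463/8000) (-71019078139245159/5000000) (-35737828540915347/62500000) (a - (59/4)) ((1467/50) - a)
    (by linarith) (by linarith) (by linarith)
    (by norm_num) (by norm_num) (by norm_num) (by norm_num) (by norm_num) (by norm_num)
  have e : Q3 34 a * (6611141604851299/10000000000) < 0 := by
    refine lt_of_eq_of_lt ?_ h
    unfold Q3
    ring
  linarith

lemma neg_35 (a : ℝ) (h0 : 0 < a) (h1 : a < (3069/100)) : Q3 35 a < 0 ∨ Q5 35 a < 0 := by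
  rcases le_or_gt a (61/4) with hv | hv
  · left
    have h := bern5 (-65940713280) (-132094917045) (-2743455312405/16) (-10425662106255/64) (-20833149954555/256) (-15581662907805/1024) a ((61/4) - a)
      (by linarith) (by linarith) (by linarith)
      (by norm_num) (by norm_num) (by norm_num) (by norm_num) (by norm_num) (by norm_num)
    have e : Q3 35 a * (844596301/1024) < 0 := by
      refine lt_of_eq_of_lt ?_ h
      unfold Q3
      ring
    linarith
  left
  have h := bern5 (-15581662907805/1024) (-362082240003069/5120) (-307194057259749/2560) (-21840939670816089/320000) (-42179476248589221/3200000) (-603439472946715929/2000000000) (a - (61/4)) ((3069/100) - a)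
    (by linarith) (by linarith) (by linarith)
    (by norm_num) (by norm_num) (by norm_num) (by norm_num) (by norm_num) (by norm_num)
  have e : Q3 35 a * (8569125894176/9765625) < 0 := by
    refine lt_of_eq_of_lt ?_ h
    unfold Q3
    ring
  linarith

lemma neg_36 (a : ℝ) (h0 : 0 < a) (h1 : a < (802/25)) : Q3 36 a < 0 ∨ Q5 36 a < 0 := by
  rcases le_or_gt a 16 with hv | hv
  · left
    have h := bern5 (-74426204160) (-144282378240) (-189656248320) (-183780495360) (-91905085440) (-17024716800) a (16 - a)
      (by linarith) (by linarith) (by linarith)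
      (by norm_num) (by norm_num) (by norm_num) (by norm_num) (by norm_num) (by norm_num)
    have e : Q3 36 a * 1048576 < 0 := by
      refine lt_of_eq_of_lt ?_ h
      unfold Q3
      ring
    linarith
  left
  have h := bern5 (-17024716800) (-391540875264/5) (-3231414680256/25) (-213674487610752/3125) (-905235772631904/78125) (-17824136283072/1953125) (a - 16) ((802/25) - a)
    (by linarith) (by linarith) (by linarith)
    (by norm_num) (by norm_num) (by norm_num) (by norm_num) (by norm_num) (by norm_num)
  have e : Q3 36 a * (10498572832032/9765625) < 0 := by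
    refine lt_of_eq_of_lt ?_ h
    unfold Q3
    ring
  linarith

lemma neg_37 (a : ℝ) (h0 : 0 < a) (h1 : a < (3349/100)) : Q3 37 a < 0 ∨ Q5 37 a < 0 := by
  rcases le_or_gt a (33/2) with hv | hv
  · left
    have h := bern5 (-83762527680) (-161148901410) (-851627441835/4) (-1657464687405/8) (-1655710041105/16) (-611404497675/32) a ((33/2) - a)
      (by linarith) (by linarith) (by linarith)
      (by norm_num) (by norm_num) (by norm_num) (by norm_num) (by norm_num) (by norm_num)
    have e : Q3 37 a * (39135393/32) < 0 := by
      refine lt_of_eq_of_lt ?_ h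
      unfold Q3
      ring
    linarith
  rcases le_or_gt a (131/4) with hv | hv
  · left
    have h := bern5 (-611404497675/32) (-5612958807075/64) (-9250372388925/64) (-10012633197525/128) (-7333306105275/512) (-267886818675/1024) (a - (33/2)) ((131/4) - a)
      (by linarith) (by linarith) (by linarith)
      (by norm_num) (by norm_num) (by norm_num) (by norm_num) (by norm_num) (by norm_num)
    have e : Q3 37 a * (1160290625/1024) < 0 := by
      refine lt_of_eq_of_lt ?_ h
      unfold Q3
      ring
    linarith
  right
  have h := bern5 (-4274709716025/1024) (-106679317308831/5120) (-2654631885137769/64000) (-65884131231275439/1600000) (-1631162915031300633/80000000) (-8058593950907488371/2000000000) (a - (131/4)) ((3349/100) - a)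
    (by linarith) (by linarith) (by linarith)
    (by norm_num) (by norm_num) (by norm_num) (by norm_num) (by norm_num) (by norm_num)
  have e : Q5 37 a * (69343957/312500000) < 0 := by
    refine lt_of_eq_of_lt ?_ h
    unfold Q5
    ring
  linarith

lemma neg_38 (a : ℝ) (h0 : 0 < a) (h1 : a < (3493/100)) : Q3 38 a < 0 ∨ Q5 38 a < 0 := by
  rcases le_or_gt a 17 with hv | hv
  · left
    have h := bern5 (-94012047360) (-179553217536) (-238413631104) (-232915995936) (-116187621264) (-21384672741) a (17 - a)
      (by linarith) (by linarith) (by linarith)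
      (by norm_num) (by norm_num) (by norm_num) (by norm_num) (by norm_num) (by norm_num)
    have e : Q3 38 a * 1419857 < 0 := by
      refine lt_of_eq_of_lt ?_ h
      unfold Q3
      ring
    linarith
  rcases le_or_gt a (135/4) with hv | hv
  · left
    have h := bern5 (-21384672741) (-391181380911/4) (-1278976428153/8) (-2711795953743/32) (-3907724129721/256) (-283329688995/1024) (a - 17) ((135/4) - a)
      (by linarith) (by linarith) (by linarith)
      (by norm_num) (by norm_num) (by norm_num) (by norm_num) (by norm_num) (by norm_num)
    have e : Q3 38 a * (1350125107/1024) < 0 := by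
      refine lt_of_eq_of_lt ?_ h
      unfold Q3
      ring
    linarith
  right
  have h := bern5 (-4319941912605/1024) (-539416098885411/25600) (-2674471344648741/64000) (-65876823305886879/1600000) (-1613446449317681517/80000000) (-7862913005974265547/2000000000) (a - (135/4)) ((3493/100) - a)
    (by linarith) (by linarith) (by linarith)
    (by norm_num) (by norm_num) (by norm_num) (by norm_num) (by norm_num) (by norm_num)
  have e : Q5 38 a * (714924299/312500000) < 0 := by
    refine lt_of_eq_of_lt ?_ h
    unfold Q5
    ring
  linarith

lemma neg_39 (a : ℝ) (h0 : 0 < a) (h1 : a < (182/5)) : Q3 39 a < 0 ∨ Q5 39 a < 0 := by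
  rcases le_or_gt a (35/2) with hv | hv
  · left
    have h := bern5 (-105240098880) (-199597900950) (-1065354845625/4) (-2089188846675/8) (-2081634648975/16) (-763938119385/32) a ((35/2) - a)
      (by linarith) (by linarith) (by linarith)
      (by norm_num) (by norm_num) (by norm_num) (by norm_num) (by norm_num) (by norm_num)
    have e : Q3 39 a * (52521875/32) < 0 := by
      refine lt_of_eq_of_lt ?_ h
      unfold Q3
      ring
    linarith
  rcases le_or_gt a (139/4) with hv | hv
  · left
    have h := bern5 (-763938119385/32) (-6962040326115/64) (-11292789018735/64) (-11732523661845/128) (-8344431590985/512) (-308566916595/1024) (a - (35/2)) ((139/4) - a)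
      (by linarith) (by linarith) (by linarith)
      (by norm_num) (by norm_num) (by norm_num) (by norm_num) (by norm_num) (by norm_num)
    have e : Q3 39 a * (1564031349/1024) < 0 := by
      refine lt_of_eq_of_lt ?_ h
      unfold Q3
      ring
    linarith
  right
  have h := bern5 (-4352705225505/1024) (-681006346839/32) (-13441776385401/320) (-1638407187963/40) (-2470848832179/125) (-2363456031048/625) (a - (139/4)) ((182/5) - a)
    (by linarith) (by linarith) (by linarith)
    (by norm_num) (by norm_num) (by norm_num) (by norm_num) (by norm_num) (by norm_num)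
  have e : Q5 39 a * (39135393/3200000) < 0 := by
    refine lt_of_eq_of_lt ?_ h
    unfold Q5
    ring
  linarith

lemma neg_40 (a : ℝ) (h0 : 0 < a) (h1 : a < (379/10)) : Q3 40 a < 0 ∨ Q5 40 a < 0 := by
  rcases le_or_gt a 18 with hv | hv
  · left
    have h := bern5 (-117515059200) (-221389977600) (-296851910400) (-292058265600) (-145309010400) (-26585677440) a (18 - a)
      (by linarith) (by linarith) (by linarith)
      (by norm_num) (by norm_num) (by norm_num) (by norm_num) (by norm_num) (by norm_num)
    have e : Q3 40 a * 1889568 < 0 := by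
      refine lt_of_eq_of_lt ?_ h
      unfold Q3
      ring
    linarith
  rcases le_or_gt a (143/4) with hv | hv
  · left
    have h := bern5 (-26585677440) (-120719717100) (-194344399350) (-791946692325/8) (-278954648775/16) (-344365122915/1024) (a - 18) ((143/4) - a)
      (by linarith) (by linarith) (by linarith)
      (by norm_num) (by norm_num) (by norm_num) (by norm_num) (by norm_num) (by norm_num)
    have e : Q3 40 a * (1804229351/1024) < 0 := by
      refine lt_of_eq_of_lt ?_ h
      unfold Q3
      ring
    linarith
  right
  have h := bern5 (-4371741734085/1024) (-10993694516145/512) (-5393029996233/128) (-12971682265509/320) (-30702056596497/1600) (-71660442435021/20000) (a - (143/4)) ((379/10) - a)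
    (by linarith) (by linarith) (by linarith)
    (by norm_num) (by norm_num) (by norm_num) (by norm_num) (by norm_num) (by norm_num)
  have e : Q5 40 a * (147008443/3200000) < 0 := by
    refine lt_of_eq_of_lt ?_ h
    unfold Q5
    ring
  linarith

lemma neg_41 (a : ℝ) (h0 : 0 < a) (h1 : a < (3943/100)) : Q3 41 a < 0 ∨ Q5 41 a < 0 := by
  rcases le_or_gt a (37/2) with hv | hv
  · left
    have h := bern5 (-130908415680) (-245041019370) (-1320523491735/4) (-2606643812745/8) (-2590326206685/16) (-945191345175/32) a ((37/2) - a)
      (by linarith) (by linarith) (by linarith)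
      (by norm_num) (by norm_num) (by norm_num) (by norm_num) (by norm_num) (by norm_num)
    have e : Q3 41 a * (69343957/32) < 0 := by
      refine lt_of_eq_of_lt ?_ h
      unfold Q3
      ring
    linarith
  rcases le_or_gt a (147/4) with hv | hv
  · left
    have h := bern5 (-945191345175/32) (-8554811149395/64) (-13672495653705/64) (-13665657481245/128) (-9568565966295/512) (-391367987955/1024) (a - (37/2)) ((147/4) - a)
      (by linarith) (by linarith) (by linarith)
      (by norm_num) (by norm_num) (by norm_num) (by norm_num) (by norm_num) (by norm_num)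
    have e : Q3 41 a * (2073071593/1024) < 0 := by
      refine lt_of_eq_of_lt ?_ h
      unfold Q3
      ring
    linarith
  right
  have h := bern5 (-4375619703945/1024) (-110835701490213/5120) (-539799486256989/12800) (-63833837249523789/1600000) (-1474903772819534169/80000000) (-6677778101831066097/2000000000) (a - (147/4)) ((3943/100) - a)
    (by linarith) (by linarith) (by linarith)
    (by norm_num) (by norm_num) (by norm_num) (by norm_num) (by norm_num) (by norm_num)
  have e : Q5 41 a * (1350125107/9765625) < 0 := by
    refine lt_of_eq_of_lt ?_ h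
    unfold Q5
    ring
  linarith

lemma neg_42 (a : ℝ) (h0 : 0 < a) (h1 : a < (4099/100)) : Q3 42 a < 0 ∨ Q5 42 a < 0 := by
  rcases le_or_gt a 19 with hv | hv
  · left
    have h := bern5 (-145494835200) (-270667238400) (-366361257600) (-362659073400) (-179952343740) (-32743075635) a (19 - a)
      (by linarith) (by linarith) (by linarith)
      (by norm_num) (by norm_num) (by norm_num) (by norm_num) (by norm_num) (by norm_num)
    have e : Q3 42 a * 2476099 < 0 := by
      refine lt_of_eq_of_lt ?_ h
      unfold Q3
      ring
    linarith
  rcases le_or_gt a (151/4) with hv | hv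
  · left
    have h := bern5 (-32743075635) (-590768227575/4) (-1875158991675/8) (-3679692414075/32) (-5138866355175/256) (-450080030115/1024) (a - 19) ((151/4) - a)
      (by linarith) (by linarith) (by linarith)
      (by norm_num) (by norm_num) (by norm_num) (by norm_num) (by norm_num) (by norm_num)
    have e : Q3 42 a * (2373046875/1024) < 0 := by
      refine lt_of_eq_of_lt ?_ h
      unfold Q3
      ring
    linarith
  right
  have h := bern5 (-4362724002285/1024) (-111682024394193/5120) (-2695598355921669/64000) (-62445147099410889/1600000) (-1400663460946825053/80000000) (-6100178811304572621/2000000000) (a - (151/4)) ((4099/100) - a)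
    (by linarith) (by linarith) (by linarith)
    (by norm_num) (by norm_num) (by norm_num) (by norm_num) (by norm_num) (by norm_num)
  have e : Q5 42 a * (3486784401/9765625) < 0 := by
    refine lt_of_eq_of_lt ?_ h
    unfold Q5
    ring
  linarith

lemma neg_43 (a : ℝ) (h0 : 0 < a) (h1 : a < (4257/100)) : Q3 43 a < 0 ∨ Q5 43 a < 0 := by
  rcases le_or_gt a (39/2) with hv | hv
  · left
    have h := bern5 (-161352233280) (-298389581406) (-1622947658661/4) (-3221971245423/8) (-3193197092379/16) (-1159014783717/32) a ((39/2) - a)
      (by linarith) (by linarith) (by linarith)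
      (by norm_num) (by norm_num) (by norm_num) (by norm_num) (by norm_num) (by norm_num)
    have e : Q3 43 a * (90224199/32) < 0 := by
      refine lt_of_eq_of_lt ?_ h
      unfold Q3
      ring
    linarith
  rcases le_or_gt a 39 with hv | hv
  · left
    have h := bern5 (-1159014783717/32) (-1300938413103/8) (-2039330713077/8) (-118482840126) (-19541565414) (-268207632) (a - (39/2)) (39 - a)
      (by linarith) (by linarith) (by linarith)
      (by norm_num) (by norm_num) (by norm_num) (by norm_num) (by norm_num) (by norm_num)
    have e : Q3 43 a * (90224199/32) < 0 := by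
      refine lt_of_eq_of_lt ?_ h
      unfold Q3
      ring
    linarith
  right
  have h := bern5 (-4268491668) (-542183630751/25) (-82342149075837/2000) (-7455363858366921/200000) (-324793076454689283/20000000) (-5442166800655923303/2000000000) (a - 39) ((4257/100) - a)
    (by linarith) (by linarith) (by linarith)
    (by norm_num) (by norm_num) (by norm_num) (by norm_num) (by norm_num) (by norm_num)
  have e : Q5 43 a * (5798839393557/10000000000) < 0 := by
    refine lt_of_eq_of_lt ?_ h
    unfold Q5
    ring
  linarith

lemma neg_44 (a : ℝ) (h0 : 0 < a) (h1 : a < (4419/100)) : Q3 44 a < 0 ∨ Q5 44 a < 0 := by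
  rcases le_or_gt a 20 with hv | hv
  · left
    have h := bern5 (-178561843200) (-328333824000) (-448460064000) (-446303520000) (-220861728000) (-39982291200) a (20 - a)
      (by linarith) (by linarith) (by linarith)
      (by norm_num) (by norm_num) (by norm_num) (by norm_num) (by norm_num) (by norm_num)
    have e : Q3 44 a * 3200000 < 0 := by
      refine lt_of_eq_of_lt ?_ h
      unfold Q3
      ring
    linarith
  rcases le_or_gt a 40 with hv | hv
  · left
    have h := bern5 (-39982291200) (-178961184000) (-278701344000) (-127262880000) (-21143808000) (-339379200) (a - 20) (40 - a)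
      (by linarith) (by linarith) (by linarith)
      (by norm_num) (by norm_num) (by norm_num) (by norm_num) (by norm_num) (by norm_num)
    have e : Q3 44 a * 3200000 < 0 := by
      refine lt_of_eq_of_lt ?_ h
      unfold Q3
      ring
    linarith
  right
  have h := bern5 (-4232908800) (-21817620864) (-1020711617676/25) (-896198165391537/25000) (-74595567361411071/5000000) (-4656727782281596221/2000000000) (a - 40) ((4419/100) - a)
    (by linarith) (by linarith) (by linarith)
    (by norm_num) (by norm_num) (by norm_num) (by norm_num) (by norm_num) (by norm_num)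
  have e : Q5 44 a * (12914277518099/10000000000) < 0 := by
    refine lt_of_eq_of_lt ?_ h
    unfold Q5
    ring
  linarith

lemma neg_45 (a : ℝ) (h0 : 0 < a) (h1 : a < (4583/100)) : Q3 45 a < 0 ∨ Q5 45 a < 0 := by
  rcases le_or_gt a (41/2) with hv | hv
  · left
    have h := bern5 (-197208285120) (-360630665010) (-1978965892035/4) (-3948402733605/8) (-3902656748265/16) (-1409588332515/32) a ((41/2) - a)
      (by linarith) (by linarith) (by linarith)
      (by norm_num) (by norm_num) (by norm_num) (by norm_num) (by norm_num) (by norm_num)
    have e : Q3 45 a * (115856201/32) < 0 := by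
      refine lt_of_eq_of_lt ?_ h
      unfold Q3
      ring
    linarith
  rcases le_or_gt a 41 with hv | hv
  · left
    have h := bern5 (-1409588332515/32) (-1572642457155/8) (-2433659065695/8) (-136546286085) (-22926208140) (-421470720) (a - (41/2)) (41 - a)
      (by linarith) (by linarith) (by linarith)
      (by norm_num) (by norm_num) (by norm_num) (by norm_num) (by norm_num) (by norm_num)
    have e : Q3 45 a * (115856201/32) < 0 := by
      refine lt_of_eq_of_lt ?_ h
      unfold Q3
      ring
    linarith
  right
  have h := bern5 (-4176307080) (-109720432602/5) (-16144734803571/400) (-1365819365795247/40000) (-2142895879246617/160000) (-3737995334956377297/2000000000) (a - 41) ((4583/100) - a)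
    (by linarith) (by linarith) (by linarith)
    (by norm_num) (by norm_num) (by norm_num) (by norm_num) (by norm_num) (by norm_num)
  have e : Q5 45 a * (26286674882643/10000000000) < 0 := by
    refine lt_of_eq_of_lt ?_ h
    unfold Q5
    ring
  linarith

lemma neg_46 (a : ℝ) (h0 : 0 < a) (h1 : a < (95/2)) : Q3 46 a < 0 ∨ Q5 46 a < 0 := by
  rcases le_or_gt a 21 with hv | hv
  · left
    have h := bern5 (-217379635200) (-395415820800) (-544800634560) (-544715856720) (-268844887080) (-48439249425) a (21 - a)
      (by linarith) (by linarith) (by linarith)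
      (by norm_num) (by norm_num) (by norm_num) (by norm_num) (by norm_num) (by norm_num)
    have e : Q3 46 a * 4084101 < 0 := by
      refine lt_of_eq_of_lt ?_ h
      unfold Q3
      ring
    linarith
  rcases le_or_gt a (169/4) with hv | hv
  · left
    have h := bern5 (-48439249425) (-860921445825/4) (-2633196010725/8) (-4470640308225/32) (-5797570922325/256) (-261617244525/1024) (a - 21) ((169/4) - a)
      (by linarith) (by linarith) (by linarith)
      (by norm_num) (by norm_num) (by norm_num) (by norm_num) (by norm_num) (by norm_num)
    have e : Q3 46 a * (4437053125/1024) < 0 := by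
      refine lt_of_eq_of_lt ?_ h
      unfold Q3
      ring
    linarith
  right
  have h := bern5 (-4252900108275/1024) (-11084477723865/512) (-4950492088815/128) (-2000968394985/64) (-726356649375/64) (-41767114725/32) (a - (169/4)) ((95/2) - a)
    (by linarith) (by linarith) (by linarith)
    (by norm_num) (by norm_num) (by norm_num) (by norm_num) (by norm_num) (by norm_num)
  have e : Q5 46 a * (4084101/1024) < 0 := by
    refine lt_of_eq_of_lt ?_ h
    unfold Q5
    ring
  linarith

lemma neg_47 (a : ℝ) (h0 : 0 < a) (h1 : a < (4921/100)) : Q3 47 a < 0 ∨ Q5 47 a < 0 := by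
  rcases le_or_gt a (43/2) with hv | hv
  · left
    have h := bern5 (-239167494720) (-432830119590) (-2395463779665/4) (-4800306347595/8) (-4732153302375/16) (-1701434690865/32) a ((43/2) - a)
      (by linarith) (by linarith) (by linarith)
      (by norm_num) (by norm_num) (by norm_num) (by norm_num) (by norm_num) (by norm_num)
    have e : Q3 47 a * (147008443/32) < 0 := by
      refine lt_of_eq_of_lt ?_ h
      unfold Q3
      ring
    linarith
  rcases le_or_gt a (173/4) with hv | hv
  · left
    have h := bern5 (-1701434690865/32) (-15077821697325/64) (-22922484796215/64) (-19144365690555/128) (-12679094885985/512) (-352929230685/1024) (a - (43/2)) ((173/4) - a)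
      (by linarith) (by linarith) (by linarith)
      (by norm_num) (by norm_num) (by norm_num) (by norm_num) (by norm_num) (by norm_num)
    have e : Q3 47 a * (4984209207/1024) < 0 := by
      refine lt_of_eq_of_lt ?_ h
      unfold Q3
      ring
    linarith
  right
  have h := bern5 (-4162498667415/1024) (-111296720136987/5120) (-2414496903943311/64000) (-45841556967578163/1600000) (-727911845131877703/80000000) (-1159822718170025679/2000000000) (a - (173/4)) ((4921/100) - a)
    (by linarith) (by linarith) (by linarith)
    (by norm_num) (by norm_num) (by norm_num) (by norm_num) (by norm_num) (by norm_num)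
  have e : Q5 47 a * (73439775749/9765625) < 0 := by
    refine lt_of_eq_of_lt ?_ h
    unfold Q5
    ring
  linarith

lemma QR_pos (a : ℝ) (h0 : 49 ≤ a) (h1 : a < 4921 / 100) : 0 < QR 47 a := by
  obtain ⟨t, rfl⟩ : ∃ t, a = 49 + t := ⟨a - 49, by ring⟩
  have ht0 : 0 ≤ t := by linarith
  have ht1 : t < 1 / 4 := by linarith
  unfold QR
  ring_nf
  nlinarith [pow_nonneg ht0 2, pow_nonneg ht0 3, pow_nonneg ht0 4,
    mul_nonneg ht0 (sub_nonneg.mpr ht1.le)]

lemma p3_nonneg (m : ℤ) : (0 : ℝ) ≤ (m : ℝ) ^ 2 * ((m : ℝ) ^ 2 - 1) ^ 2 * ((m : ℝ) ^ 2 - 4) *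
    ((m : ℝ) ^ 2 - 9) * ((m : ℝ) ^ 2 - 16) := by
  have h : (0 : ℤ) ≤ m ^ 2 * (m ^ 2 - 1) ^ 2 * (m ^ 2 - 4) * (m ^ 2 - 9) * (m ^ 2 - 16) := by
    rcases le_or_gt (m ^ 2) 16 with h | h
    · have h1 : m ≤ 4 := by nlinarith
      have h2 : -4 ≤ m := by nlinarith
      interval_cases m <;> norm_num
    · have h1 : 0 < m ^ 2 - 4 := by linarith
      have h2 : 0 < m ^ 2 - 9 := by linarith
      have h3 : 0 < m ^ 2 - 16 := by linarith
      positivity
  exact_mod_cast h

lemma p5_nonneg (m : ℤ) (hm : m ^ 2 < 49) : (0 : ℝ) ≤ (m : ℝ) ^ 2 * ((m : ℝ) ^ 2 - 1) *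
    ((m : ℝ) ^ 2 - 4) * ((m : ℝ) ^ 2 - 9) * ((m : ℝ) ^ 2 - 16) * (36 - (m : ℝ) ^ 2) := by
  have h : (0 : ℤ) ≤ m ^ 2 * (m ^ 2 - 1) * (m ^ 2 - 4) * (m ^ 2 - 9) * (m ^ 2 - 16) *
      (36 - m ^ 2) := by
    have h1 : m < 7 := by nlinarith
    have h2 : -7 < m := by nlinarith
    interval_cases m <;> norm_num
  exact_mod_cast h

end Pool.Agent.Helper70.Design
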