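import Mathlib

set_option autoImplicit false

/-!
# Even moments of linear forms on the unit sphere
-/

namespace Pool.Agent.Helper70.Design

open MeasureTheory Metric Set
open scoped RealInnerProductSpace Pointwise

section Rot

variable {F : Type*} [NormedAddCommGroup F] [InnerProductSpace ℝ F] [FiniteDimensional ℝ F]
  [MeasurableSpace F] [BorelSpace F]

/-- the action of an isometry on the sphere -/
def sphMap (g : F ≃ₗᵢ[ℝ] F) : sphere (0 : F) 1 → sphere (0 : F) 1 :=
  fun u => ⟨g u, by rw [mem_sphere_zero_iff_norm, g.norm_map]; exact norm_eq_of_mem_sphere u⟩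

omit [FiniteDimensional ℝ F] [MeasurableSpace F] [BorelSpace F] in
lemma sphMap_continuous (g : F ≃ₗᵢ[ℝ] F) : Continuous (sphMap g) :=
  Continuous.subtype_mk (g.continuous.comp continuous_subtype_val) _

lemma sphMap_measurePreserving (g : F ≃ₗᵢ[ℝ] F) :
    MeasurePreserving (sphMap g) (volume : Measure F).toSphere (volume : Measure F).toSphere := by
  refine ⟨(sphMap_continuous g).measurable, ?_⟩
  ext s hs
  rw [Measure.map_apply (sphMap_continuous g).measurable hs,
    Measure.toSphere_apply' _ hs,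
    Measure.toSphere_apply' _ ((sphMap_continuous g).measurable hs)]
  congr 1
  have h1 : Ioo (0 : ℝ) 1 • ((↑) '' (sphMap g ⁻¹' s) : Set F) =
      g ⁻¹' (Ioo (0 : ℝ) 1 • ((↑) '' s)) := by
    ext x
    simp only [mem_preimage, Set.mem_smul, mem_image, Subtype.exists, exists_and_right,
      exists_eq_right]
    constructor
    · rintro ⟨t, ht, y, ⟨hy1, hy2⟩, rfl⟩
      refine ⟨t, ht, g y, ⟨(sphMap g ⟨y, hy1⟩).2, hy2⟩, ?_⟩
      simp
    · rintro ⟨t, ht, y, ⟨hy1, hy2⟩, hxy⟩
      have hy3 : g.symm y ∈ sphere (0 : F) 1 := by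
        rw [mem_sphere_zero_iff_norm, g.symm.norm_map]
        rwa [mem_sphere_zero_iff_norm] at hy1
      refine ⟨t, ht, g.symm y, ⟨hy3, ?_⟩, ?_⟩
      · have : sphMap g ⟨g.symm y, hy3⟩ = ⟨y, hy1⟩ := Subtype.ext (by simp [sphMap])
        rw [this]
        exact hy2
      · apply g.injective
        rw [map_smul, g.apply_symm_apply, hxy]
  rw [h1]
  exact g.measurePreserving.measure_preimage_equiv (f := g.toMeasurableEquiv) _

lemma integral_sphMap (g : F ≃ₗᵢ[ℝ] F) (f : F → ℝ) (hf : Continuous f) :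
    ∫ u : sphere (0 : F) 1, f (g u) ∂(volume : Measure F).toSphere =
      ∫ u : sphere (0 : F) 1, f u ∂(volume : Measure F).toSphere := by
  have h := (sphMap_measurePreserving g).map_eq
  conv_rhs => rw [← h]
  rw [integral_map (sphMap_continuous g).measurable.aemeasurable]
  · rfl
  · exact (hf.comp continuous_subtype_val).aestronglyMeasurable

lemma integral_inner_pow (v w : F) (hvw : ‖v‖ = ‖w‖) (k : ℕ) :
    ∫ u : sphere (0 : F) 1, (⟪(u : F), v⟫) ^ k ∂(volume : Measure F).toSphere =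
      ∫ u : sphere (0 : F) 1, (⟪(u : F), w⟫) ^ k ∂(volume : Measure F).toSphere := by
  set g := (ℝ ∙ (v - w))ᗮ.reflection with hg
  have hgv : g v = w := Submodule.reflection_sub hvw
  rw [← integral_sphMap g (fun x => (⟪x, w⟫) ^ k) (by fun_prop)]
  refine integral_congr_ae (Filter.Eventually.of_forall fun u => ?_)
  simp only
  rw [← hgv, g.inner_map_map]

lemma integrable_sph (f : F → ℝ) (hf : Continuous f) :
    Integrable (fun u : sphere (0 : F) 1 => f u) (volume : Measure F).toSphere := by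
  have : CompactSpace (sphere (0 : F) 1) := isCompact_iff_compactSpace.mp (isCompact_sphere 0 1)
  exact (hf.comp continuous_subtype_val).integrable_of_hasCompactSupport
    (HasCompactSupport.of_compactSpace _)

/-- mixed moments from pure moments -/
lemma mixed (v w : F) (hv : ‖v‖ = 1) (hw : ‖w‖ = 1) (hvw : ⟪v, w⟫ = 0) (j : ℕ) :
    (2 * j + 1 : ℝ) * ∫ u : sphere (0 : F) 1, (⟪(u : F), v⟫) ^ (2 * j) * (⟪(u : F), w⟫) ^ 2
        ∂(volume : Measure F).toSphere =
      ∫ u : sphere (0 : F) 1, (⟪(u : F), v⟫) ^ (2 * j + 2) ∂(volume : Measure F).toSphere := by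
  set M := ∫ u : sphere (0 : F) 1, (⟪(u : F), v⟫) ^ (2 * j + 2) ∂(volume : Measure F).toSphere
    with hM
  set m : ℕ → ℝ := fun i => ∫ u : sphere (0 : F) 1,
    (⟪(u : F), w⟫) ^ i * (⟪(u : F), v⟫) ^ (2 * j + 2 - i) ∂(volume : Measure F).toSphere with hm
  set P : Polynomial ℝ := ∑ i ∈ Finset.range (2 * j + 2 + 1),
    Polynomial.C (m i * ((2 * j + 2).choose i : ℝ)) * Polynomial.X ^ i with hP
  set Q : Polynomial ℝ := Polynomial.C M * Polynomial.expand ℝ 2 ((1 + Polynomial.X) ^ (j + 1))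
    with hQ
  have hPQ : P = Q := by
    apply Polynomial.funext
    intro t
    have h1 : Polynomial.eval t Q = (1 + t ^ 2) ^ (j + 1) * M := by
      rw [hQ, Polynomial.eval_mul, Polynomial.eval_C, Polynomial.expand_eval,
        Polynomial.eval_pow, Polynomial.eval_add, Polynomial.eval_one, Polynomial.eval_X]
      ring
    have h2 : Polynomial.eval t P = ∫ u : sphere (0 : F) 1,
        (⟪(u : F), t • w + v⟫) ^ (2 * j + 2) ∂(volume : Measure F).toSphere := by
      have h3 : ∀ u : sphere (0 : F) 1, (⟪(u : F), t • w + v⟫) ^ (2 * j + 2) =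
          ∑ i ∈ Finset.range (2 * j + 2 + 1),
            (t ^ i * ((2 * j + 2).choose i : ℝ)) *
              ((⟪(u : F), w⟫) ^ i * (⟪(u : F), v⟫) ^ (2 * j + 2 - i)) := by
        intro u
        rw [inner_add_right, inner_smul_right, add_pow]
        refine Finset.sum_congr rfl fun i _ => ?_
        rw [mul_pow]
        ring
      simp_rw [h3]
      rw [integral_finsetSum]
      · rw [hP, Polynomial.eval_finsetSum]
        refine Finset.sum_congr rfl fun i _ => ?_
        rw [integral_const_mul, Polynomial.eval_mul, Polynomial.eval_C, Polynomial.eval_pow,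
          Polynomial.eval_X]
        simp only [hm]
        ring
      · intro i _
        exact integrable_sph (fun x => (t ^ i * ((2 * j + 2).choose i : ℝ)) *
              ((⟪x, w⟫) ^ i * (⟪x, v⟫) ^ (2 * j + 2 - i))) (by fun_prop)
    have hn : ‖t • w + v‖ = ‖(Real.sqrt (1 + t ^ 2)) • v‖ := by
      rw [norm_smul, hv, mul_one, Real.norm_of_nonneg (Real.sqrt_nonneg _)]
      rw [eq_comm, Real.sqrt_eq_iff_mul_self_eq (by positivity) (norm_nonneg _)]
      rw [← real_inner_self_eq_norm_mul_norm, inner_add_left, inner_add_right, inner_add_right,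
        inner_smul_left, inner_smul_right, inner_smul_right, inner_smul_left,
        real_inner_self_eq_norm_mul_norm, real_inner_self_eq_norm_mul_norm, hv, hw,
        real_inner_comm, hvw]
      simp
      ring
    rw [h2, h1, integral_inner_pow _ _ hn]
    have h4 : ∀ u : sphere (0 : F) 1, (⟪(u : F), (Real.sqrt (1 + t ^ 2)) • v⟫) ^ (2 * j + 2) =
        (1 + t ^ 2) ^ (j + 1) * (⟪(u : F), v⟫) ^ (2 * j + 2) := by
      intro u
      rw [inner_smul_right, mul_pow]
      congr 1
      have : 2 * j + 2 = 2 * (j + 1) := by ring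
      rw [this, pow_mul, Real.sq_sqrt (by positivity)]
    simp_rw [h4]
    rw [integral_const_mul]
  have hc := congrArg (fun p => Polynomial.coeff p 2) hPQ
  have hcP : P.coeff 2 = m 2 * ((2 * j + 2).choose 2 : ℝ) := by
    rw [hP, Polynomial.finsetSum_coeff, Finset.sum_eq_single 2]
    · rw [Polynomial.coeff_C_mul, Polynomial.coeff_X_pow, if_pos rfl, mul_one]
    · intro i _ hi
      rw [Polynomial.coeff_C_mul, Polynomial.coeff_X_pow, if_neg (Ne.symm hi), mul_zero]
    · intro h
      exact absurd (Finset.mem_range.mpr (by omega)) h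
  have hcQ : Q.coeff 2 = M * (j + 1) := by
    rw [hQ, Polynomial.coeff_C_mul]
    have h5 := Polynomial.coeff_expand_mul (R := ℝ) (p := 2) (by norm_num)
      ((1 + Polynomial.X) ^ (j + 1)) 1
    rw [one_mul] at h5
    rw [h5, Polynomial.coeff_one_add_X_pow, Nat.choose_one_right]
    push_cast
    ring
  rw [hcP, hcQ] at hc
  have hch : (((2 * j + 2).choose 2 : ℕ) : ℝ) = (j + 1) * (2 * j + 1) := by
    rw [Nat.cast_choose_two]
    push_cast
    ring
  rw [hch] at hc
  have hj : (j + 1 : ℝ) ≠ 0 := by positivity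
  have hm2 : m 2 = ∫ u : sphere (0 : F) 1, (⟪(u : F), v⟫) ^ (2 * j) * (⟪(u : F), w⟫) ^ 2
        ∂(volume : Measure F).toSphere := by
    simp only [hm]
    refine integral_congr_ae (Filter.Eventually.of_forall fun u => ?_)
    simp only [Nat.add_sub_cancel]
    ring
  rw [← hm2]
  have h6 : (j + 1 : ℝ) * ((2 * j + 1) * m 2) = (j + 1) * M := by linarith
  exact mul_left_cancel₀ hj h6

/-- the recursion for the even moments of a coordinate -/
lemma moment_rec {ι : Type*} [Fintype ι] (b : OrthonormalBasis ι ℝ F) (i₀ : ι) (j : ℕ) :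
    (2 * j + 1 : ℝ) * ∫ u : sphere (0 : F) 1, (⟪(u : F), b i₀⟫) ^ (2 * j)
        ∂(volume : Measure F).toSphere =
      (Fintype.card ι + 2 * j : ℝ) * ∫ u : sphere (0 : F) 1, (⟪(u : F), b i₀⟫) ^ (2 * j + 2)
        ∂(volume : Measure F).toSphere := by
  classical
  set M := ∫ u : sphere (0 : F) 1, (⟪(u : F), b i₀⟫) ^ (2 * j + 2)
        ∂(volume : Measure F).toSphere with hM
  have h1 : ∫ u : sphere (0 : F) 1, (⟪(u : F), b i₀⟫) ^ (2 * j) ∂(volume : Measure F).toSphere =
      ∑ i, ∫ u : sphere (0 : F) 1, (⟪(u : F), b i₀⟫) ^ (2 * j) * (⟪(u : F), b i⟫) ^ 2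
        ∂(volume : Measure F).toSphere := by
    rw [← integral_finsetSum]
    · refine integral_congr_ae (Filter.Eventually.of_forall fun u => ?_)
      simp only
      rw [← Finset.mul_sum]
      have h2 : ∑ i, (⟪(u : F), b i⟫) ^ 2 = 1 := by
        have h3 := b.sum_sq_norm_inner_left (u : F)
        rw [norm_eq_of_mem_sphere u, one_pow] at h3
        refine Eq.trans (Finset.sum_congr rfl fun i _ => ?_) h3
        rw [Real.norm_eq_abs, sq_abs]
      rw [h2, mul_one]
    · intro i _
      exact integrable_sph (fun x => (⟪x, b i₀⟫) ^ (2 * j) * (⟪x, b i⟫) ^ 2) (by fun_prop)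
  have h4 : ∀ i, i ≠ i₀ → (2 * j + 1 : ℝ) * ∫ u : sphere (0 : F) 1,
      (⟪(u : F), b i₀⟫) ^ (2 * j) * (⟪(u : F), b i⟫) ^ 2 ∂(volume : Measure F).toSphere = M :=
    fun i hi => mixed (b i₀) (b i) (b.norm_eq_one i₀) (b.norm_eq_one i)
      (b.orthonormal.2 (Ne.symm hi)) j
  have h5 : ∫ u : sphere (0 : F) 1, (⟪(u : F), b i₀⟫) ^ (2 * j) * (⟪(u : F), b i₀⟫) ^ 2
      ∂(volume : Measure F).toSphere = M := by
    rw [hM]
    refine integral_congr_ae (Filter.Eventually.of_forall fun u => ?_)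
    simp only
    rw [pow_add]
  rw [h1, Finset.mul_sum, ← Finset.add_sum_erase _ _ (Finset.mem_univ i₀), h5,
    Finset.sum_congr rfl (fun i hi => h4 i (Finset.ne_of_mem_erase hi)), Finset.sum_const,
    Finset.card_erase_of_mem (Finset.mem_univ _), Finset.card_univ, nsmul_eq_mul]
  have hc : 1 ≤ Fintype.card ι := Fintype.card_pos_iff.mpr ⟨i₀⟩
  rw [Nat.cast_sub hc]
  push_cast
  ring

/-- the moment constants -/
noncomputable def cc (n k : ℕ) : ℝ := ∏ i ∈ Finset.range k, ((2 * i + 1 : ℝ) / (n + 2 * i))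

lemma cc_succ (n k : ℕ) : cc n (k + 1) = cc n k * ((2 * k + 1 : ℝ) / (n + 2 * k)) := by
  rw [cc, Finset.prod_range_succ]
  rfl

/-- even moments of linear forms on the sphere -/
theorem moment {n : ℕ} (hn : 0 < n) (α : EuclideanSpace ℝ (Fin n)) (k : ℕ) :
    ∫ u : sphere (0 : EuclideanSpace ℝ (Fin n)) 1, (⟪(u : EuclideanSpace ℝ (Fin n)), α⟫) ^ (2 * k)
        ∂(volume : Measure (EuclideanSpace ℝ (Fin n))).toSphere =
      cc n k * ‖α‖ ^ (2 * k) *
        (volume : Measure (EuclideanSpace ℝ (Fin n))).toSphere.real univ := by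
  set b := EuclideanSpace.basisFun (Fin n) ℝ with hb
  have hunit : ∀ k : ℕ, ∫ u : sphere (0 : EuclideanSpace ℝ (Fin n)) 1,
      (⟪(u : EuclideanSpace ℝ (Fin n)), b ⟨0, hn⟩⟫) ^ (2 * k)
        ∂(volume : Measure (EuclideanSpace ℝ (Fin n))).toSphere =
      cc n k * (volume : Measure (EuclideanSpace ℝ (Fin n))).toSphere.real univ := by
    intro k
    induction k with
    | zero => simp [cc]
    | succ k ih =>
      have h1 := moment_rec b ⟨0, hn⟩ k
      rw [ih, Fintype.card_fin] at h1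
      rw [cc_succ, mul_add, mul_one]
      have h2 : (n + 2 * k : ℝ) ≠ 0 := by positivity
      rw [eq_comm, ← mul_right_inj' h2, ← h1]
      field_simp
  have hα : ‖α‖ = ‖‖α‖ • b ⟨0, hn⟩‖ := by
    rw [norm_smul, b.norm_eq_one, mul_one, norm_norm]
  rw [integral_inner_pow _ _ hα]
  have h3 : ∀ u : sphere (0 : EuclideanSpace ℝ (Fin n)) 1,
      (⟪(u : EuclideanSpace ℝ (Fin n)), ‖α‖ • b ⟨0, hn⟩⟫) ^ (2 * k) =
      ‖α‖ ^ (2 * k) * (⟪(u : EuclideanSpace ℝ (Fin n)), b ⟨0, hn⟩⟫) ^ (2 * k) := by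
    intro u
    rw [inner_smul_right, mul_pow]
  simp_rw [h3]
  rw [integral_const_mul, hunit]
  ring

end Rot

end Pool.Agent.Helper70.Design
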